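import Pool.Agent.H362R2.RQ.Pair2

set_option autoImplicit false

/-! RQ: the detector of the hit colours. -/

open Finset Filter

namespace Pool.Agent.H362R2.RQ

open Pool.Agent.H378R2

/-- size of a fibre -/
def fib {K m : ℕ} (col : Fin K → Fin m) (d : Fin m) : ℕ := (univ.filter (fun i => col i = d)).card

/-- coefficient of an index -/
noncomputable def al {K m : ℕ} (A0 : ℝ) (col : Fin K → Fin m) (i : Fin K) : ℝ := A0 / fib col (col i)

/-- the other indices of the same colour -/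
def oth {K m : ℕ} (col : Fin K → Fin m) (i : Fin K) : Finset (Fin K) :=
  univ.filter (fun j => i ≠ j ∧ col j = col i)

/-- the detector of the hit colours -/
noncomputable def QQn {K m : ℕ} (A0 : ℝ) (col : Fin K → Fin m) (θ : Fin K → ℝ) : ℝ :=
  ∑ i, al A0 col i * θ i - ∑ i, ∑ j ∈ oth col i, (al A0 col i) ^ 2 * (θ i * θ j)

theorem hit_le {ι : Type} [DecidableEq ι] (F : Finset ι) (θ : ι → ℝ) (h0 : ∀ i, 0 ≤ θ i) (h1 : ∀ i, θ i ≤ 1) (a : ℝ)
    (ha0 : 0 ≤ a) (ha1 : a ≤ 1) :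
    ∑ i ∈ F, a * θ i - ∑ i ∈ F, ∑ j ∈ F.filter (fun j => i ≠ j), a ^ 2 * (θ i * θ j) ≤ 1 := by
  set x := ∑ i ∈ F, θ i with hx
  have e1 : ∑ i ∈ F, a * θ i = a * x := by rw [hx, Finset.mul_sum]
  have e2 : ∀ i ∈ F, ∑ j ∈ F.filter (fun j => i ≠ j), a ^ 2 * (θ i * θ j) = a ^ 2 * (θ i * x) - a ^ 2 * (θ i * θ i) := by
    intro i hi
    have h2 : F.filter (fun j => i ≠ j) = F.erase i := by
      ext j
      rw [Finset.mem_filter, Finset.mem_erase]
      constructor
      · rintro ⟨h3, h4⟩; exact ⟨fun h => h4 h.symm, h3⟩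
      · rintro ⟨h3, h4⟩; exact ⟨h4, fun h => h3 h.symm⟩
    rw [h2, ← Finset.mul_sum, ← Finset.mul_sum, hx, ← Finset.add_sum_erase F θ hi]
    ring
  rw [e1, Finset.sum_congr rfl e2, Finset.sum_sub_distrib]
  have e3 : ∑ i ∈ F, a ^ 2 * (θ i * x) = a ^ 2 * (x * x) := by
    rw [← Finset.mul_sum, ← Finset.sum_mul]
  have e4 : ∑ i ∈ F, a ^ 2 * (θ i * θ i) ≤ a ^ 2 * x := by
    rw [← Finset.mul_sum]
    apply mul_le_mul_of_nonneg_left _ (sq_nonneg a)
    rw [hx]
    refine Finset.sum_le_sum fun i _ => ?_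
    have := mul_le_mul_of_nonneg_left (h1 i) (h0 i)
    linarith
  have hx0 : 0 ≤ x := Finset.sum_nonneg fun i _ => h0 i
  rw [e3]
  have h3 : a ^ 2 * x ≤ a * x := by
    apply mul_le_mul_of_nonneg_right _ hx0
    nlinarith
  nlinarith [sq_nonneg (a * x - 1)]

theorem oth_eq {K m : ℕ} (col : Fin K → Fin m) (d : Fin m) (i : Fin K) (hi : i ∈ univ.filter (fun i => col i = d)) :
    oth col i = (univ.filter (fun i => col i = d)).filter (fun j => i ≠ j) := by
  rw [Finset.mem_filter] at hi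
  ext j
  unfold oth
  rw [Finset.mem_filter, Finset.mem_filter, Finset.mem_filter, hi.2]
  tauto

theorem QQn_eq {K m : ℕ} (A0 : ℝ) (col : Fin K → Fin m) (θ : Fin K → ℝ) :
    QQn A0 col θ = ∑ d : Fin m, (∑ i ∈ univ.filter (fun i => col i = d), (A0 / fib col d) * θ i -
      ∑ i ∈ univ.filter (fun i => col i = d), ∑ j ∈ (univ.filter (fun i => col i = d)).filter (fun j => i ≠ j),
        (A0 / fib col d) ^ 2 * (θ i * θ j)) := by
  unfold QQn
  rw [Finset.sum_sub_distrib, ← Finset.sum_fiberwise univ col (fun i => al A0 col i * θ i),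
    ← Finset.sum_fiberwise univ col (fun i => ∑ j ∈ oth col i, (al A0 col i) ^ 2 * (θ i * θ j))]
  congr 1
  · refine Finset.sum_congr rfl fun d _ => Finset.sum_congr rfl fun i hi => ?_
    unfold al
    rw [(Finset.mem_filter.1 hi).2]
  · refine Finset.sum_congr rfl fun d _ => Finset.sum_congr rfl fun i hi => ?_
    rw [oth_eq col d i hi]
    unfold al
    rw [(Finset.mem_filter.1 hi).2]

/-- the detector is at most the number of the hit colours -/
theorem QQn_le {K m : ℕ} (A0 : ℝ) (hA0 : 0 ≤ A0) (col : Fin K → Fin m) (hfib : ∀ d, A0 ≤ fib col d)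
    (θ : Fin K → ℝ) (h0 : ∀ i, 0 ≤ θ i) (h1 : ∀ i, θ i ≤ 1) (hit : Fin m → Prop) [DecidablePred hit]
    (hh : ∀ i, θ i ≠ 0 → hit (col i)) :
    QQn A0 col θ ≤ (((univ : Finset (Fin m)).filter hit).card : ℝ) := by
  rw [QQn_eq]
  have h2 : (((univ : Finset (Fin m)).filter hit).card : ℝ) = ∑ d : Fin m, if hit d then (1 : ℝ) else 0 := by
    rw [Finset.sum_boole]
  rw [h2]
  refine Finset.sum_le_sum fun d _ => ?_
  split_ifs with hd
  · apply hit_le _ θ h0 h1
    · exact div_nonneg hA0 (Nat.cast_nonneg _)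
    · exact div_le_one_of_le₀ (hfib d) (Nat.cast_nonneg _)
  · have h3 : ∀ i ∈ univ.filter (fun i => col i = d), θ i = 0 := by
      intro i hi
      by_contra h
      apply hd
      rw [← (Finset.mem_filter.1 hi).2]
      exact hh i h
    rw [Finset.sum_eq_zero (fun i hi => by rw [h3 i hi, mul_zero]),
      Finset.sum_eq_zero (fun i hi => Finset.sum_eq_zero fun j _ => by rw [h3 i hi, zero_mul, mul_zero])]
    simp

/-- the detector is at most the number of primes -/
theorem QQn_le_sum {K m : ℕ} (A0 : ℝ) (hA0 : 0 ≤ A0) (col : Fin K → Fin m) (hfib : ∀ d, A0 ≤ fib col d)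
    (θ : Fin K → ℝ) (h0 : ∀ i, 0 ≤ θ i) : QQn A0 col θ ≤ ∑ i, θ i := by
  unfold QQn
  have h1 : 0 ≤ ∑ i, ∑ j ∈ oth col i, (al A0 col i) ^ 2 * (θ i * θ j) :=
    Finset.sum_nonneg fun i _ => Finset.sum_nonneg fun j _ => mul_nonneg (sq_nonneg _) (mul_nonneg (h0 i) (h0 j))
  have h2 : ∑ i, al A0 col i * θ i ≤ ∑ i, θ i := by
    refine Finset.sum_le_sum fun i _ => ?_
    have h3 : al A0 col i ≤ 1 := div_le_one_of_le₀ (hfib _) (Nat.cast_nonneg _)
    calc al A0 col i * θ i ≤ 1 * θ i := mul_le_mul_of_nonneg_right h3 (h0 i)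
      _ = θ i := one_mul _
  linarith

theorem sum_al {K m : ℕ} (A0 : ℝ) (col : Fin K → Fin m) (hfib : ∀ d, 0 < fib col d) :
    ∑ i, al A0 col i = m * A0 := by
  rw [← Finset.sum_fiberwise univ col (fun i => al A0 col i)]
  have h1 : ∀ d : Fin m, ∑ i ∈ univ.filter (fun i => col i = d), al A0 col i = A0 := by
    intro d
    have h2 : ∀ i ∈ univ.filter (fun i => col i = d), al A0 col i = A0 / fib col d := by
      intro i hi
      unfold al
      rw [(Finset.mem_filter.1 hi).2]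
    rw [Finset.sum_congr rfl h2, Finset.sum_const, nsmul_eq_mul]
    have h3 : (0 : ℝ) < fib col d := by exact_mod_cast hfib d
    have h4 : ((univ.filter (fun i => col i = d)).card : ℝ) = fib col d := rfl
    rw [h4]
    field_simp
  rw [Finset.sum_congr rfl (fun d _ => h1 d), Finset.sum_const, Finset.card_univ, Fintype.card_fin, nsmul_eq_mul]

theorem sum_al_sq {K m : ℕ} (A0 : ℝ) (col : Fin K → Fin m) (hfib : ∀ d, 0 < fib col d) :
    ∑ i, ∑ _j ∈ oth col i, (al A0 col i) ^ 2 ≤ m * A0 ^ 2 := by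
  rw [← Finset.sum_fiberwise univ col (fun i => ∑ _j ∈ oth col i, (al A0 col i) ^ 2)]
  have h1 : ∀ d : Fin m, ∑ i ∈ univ.filter (fun i => col i = d), ∑ _j ∈ oth col i, (al A0 col i) ^ 2 ≤ A0 ^ 2 := by
    intro d
    have h3 : (0 : ℝ) < fib col d := by exact_mod_cast hfib d
    have h2 : ∀ i ∈ univ.filter (fun i => col i = d), ∑ _j ∈ oth col i, (al A0 col i) ^ 2 ≤
        fib col d * (A0 / fib col d) ^ 2 := by
      intro i hi
      have h4 : ((oth col i).card : ℝ) ≤ fib col d := by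
        rw [oth_eq col d i hi]
        exact_mod_cast Finset.card_filter_le _ _
      have h5 : al A0 col i = A0 / fib col d := by
        unfold al
        rw [(Finset.mem_filter.1 hi).2]
      rw [Finset.sum_const, nsmul_eq_mul, h5]
      exact mul_le_mul_of_nonneg_right h4 (sq_nonneg _)
    refine (Finset.sum_le_sum h2).trans (le_of_eq ?_)
    rw [Finset.sum_const, nsmul_eq_mul]
    have h4 : ((univ.filter (fun i => col i = d)).card : ℝ) = fib col d := rfl
    rw [h4]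
    field_simp
  refine (Finset.sum_le_sum fun d _ => h1 d).trans (le_of_eq ?_)
  rw [Finset.sum_const, Finset.card_univ, Fintype.card_fin, nsmul_eq_mul]

/-- weighted sum of the detector -/
theorem sum_QQn {K m : ℕ} (A0 : ℝ) (hA0 : 0 ≤ A0) (col : Fin K → Fin m) (hfib : ∀ d, 0 < fib col d)
    (I : Finset ℕ) (Wn : ℕ → ℝ) (θ : ℕ → Fin K → ℝ) (LB UB : ℝ) (hUB : 0 ≤ UB)
    (h1 : ∀ i, LB ≤ ∑ n ∈ I, Wn n * θ n i)
    (h2 : ∀ i j, i ≠ j → ∑ n ∈ I, Wn n * (θ n i * θ n j) ≤ UB) :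
    m * A0 * LB - m * A0 ^ 2 * UB ≤ ∑ n ∈ I, Wn n * QQn A0 col (θ n) := by
  have hal : ∀ i, 0 ≤ al A0 col i := fun i => div_nonneg hA0 (Nat.cast_nonneg _)
  have e1 : ∑ n ∈ I, Wn n * QQn A0 col (θ n) = ∑ i, al A0 col i * ∑ n ∈ I, Wn n * θ n i -
      ∑ i, ∑ j ∈ oth col i, (al A0 col i) ^ 2 * ∑ n ∈ I, Wn n * (θ n i * θ n j) := by
    have e2 : ∀ n, Wn n * QQn A0 col (θ n) = ∑ i, al A0 col i * (Wn n * θ n i) -
        ∑ i, ∑ j ∈ oth col i, (al A0 col i) ^ 2 * (Wn n * (θ n i * θ n j)) := by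
      intro n
      unfold QQn
      rw [mul_sub, Finset.mul_sum, Finset.mul_sum]
      congr 1
      · refine Finset.sum_congr rfl fun i _ => ?_
        ring
      · refine Finset.sum_congr rfl fun i _ => ?_
        rw [Finset.mul_sum]
        refine Finset.sum_congr rfl fun j _ => ?_
        ring
    rw [Finset.sum_congr rfl (fun n _ => e2 n), Finset.sum_sub_distrib]
    congr 1
    · rw [Finset.sum_comm]
      refine Finset.sum_congr rfl fun i _ => ?_
      rw [Finset.mul_sum]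
    · rw [Finset.sum_comm]
      refine Finset.sum_congr rfl fun i _ => ?_
      rw [Finset.sum_comm]
      refine Finset.sum_congr rfl fun j _ => ?_
      rw [Finset.mul_sum]
  rw [e1]
  have e3 : m * A0 * LB ≤ ∑ i, al A0 col i * ∑ n ∈ I, Wn n * θ n i := by
    rw [← sum_al A0 col hfib, Finset.sum_mul]
    exact Finset.sum_le_sum fun i _ => mul_le_mul_of_nonneg_left (h1 i) (hal i)
  have e4 : ∑ i, ∑ j ∈ oth col i, (al A0 col i) ^ 2 * ∑ n ∈ I, Wn n * (θ n i * θ n j) ≤ m * A0 ^ 2 * UB := by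
    calc ∑ i, ∑ j ∈ oth col i, (al A0 col i) ^ 2 * ∑ n ∈ I, Wn n * (θ n i * θ n j)
        ≤ ∑ i, ∑ _j ∈ oth col i, (al A0 col i) ^ 2 * UB := by
          refine Finset.sum_le_sum fun i _ => Finset.sum_le_sum fun j hj => ?_
          apply mul_le_mul_of_nonneg_left _ (sq_nonneg _)
          unfold oth at hj
          exact h2 i j (Finset.mem_filter.1 hj).2.1
      _ = (∑ i, ∑ _j ∈ oth col i, (al A0 col i) ^ 2) * UB := by
          rw [Finset.sum_mul]
          refine Finset.sum_congr rfl fun i _ => ?_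
          rw [Finset.sum_mul]
      _ ≤ _ := mul_le_mul_of_nonneg_right (sum_al_sq A0 col hfib) hUB
  linarith

end Pool.Agent.H362R2.RQ
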