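import Mathlib

set_option autoImplicit false

/-! RQ: the final combination. -/

namespace Pool.Agent.H362R2.RQ

/-- the constant of the lower bounds -/
noncomputable def kap : ℝ := 3 / 5120000

/-- the constant of the theorem -/
noncomputable def etaQ (g : ℝ) : ℝ := kap ^ 2 / (1024 * g ^ 2)

theorem kap_pos : 0 < kap := by unfold kap; norm_num

theorem etaQ_pos (g : ℝ) (hg : 0 < g) : 0 < etaQ g := by
  unfold etaQ
  have := kap_pos
  positivity

/-- lower bound for a single index -/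
theorem low1 (Mm M2 L l4 sJ J ε Z M M' S E : ℝ) (hMm : 0 < Mm) (hL : 0 < L) (hl4 : 1 ≤ l4)
    (hl4L : l4 ≤ 400 * L) (hsJ : 0 < sJ) (hJ : 2 / 3 * sJ ≤ J) (hε : ε ≤ sJ / 3)
    (hM2 : Mm * (L / 800) ≤ M2) (hZ : 1 ≤ Z) (hM1 : 3 / 4 * Z ≤ M) (hM' : 3 / 4 * M ≤ M') (hE : 0 ≤ E)
    (H : M' * (M2 * (J - ε)) - E ≤ S) : kap * (Z * Mm * sJ) - E ≤ S / l4 := by
  rw [le_div_iff₀ (by linarith)]
  refine le_trans ?_ H
  have h1 : Z * (9 / 16) ≤ M' := by linarith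
  have h2 : sJ / 3 ≤ J - ε := by linarith
  have h3 : Mm * (L / 800) * (sJ / 3) ≤ M2 * (J - ε) := by
    apply mul_le_mul hM2 h2 (by positivity)
    exact le_trans (by positivity) hM2
  have h4 : Z * (9 / 16) * (Mm * (L / 800) * (sJ / 3)) ≤ M' * (M2 * (J - ε)) := by
    apply mul_le_mul h1 h3 (by positivity)
    linarith
  have h5 : kap * (Z * Mm * sJ) * l4 ≤ Z * (9 / 16) * (Mm * (L / 800) * (sJ / 3)) := by
    have hnn : 0 ≤ kap * (Z * Mm * sJ) := by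
      have := kap_pos
      positivity
    calc kap * (Z * Mm * sJ) * l4 ≤ kap * (Z * Mm * sJ) * (400 * L) := mul_le_mul_of_nonneg_left hl4L hnn
      _ = _ := by unfold kap; ring
  have h6 : E * 1 ≤ E * l4 := mul_le_mul_of_nonneg_left hl4 hE
  rw [sub_mul]
  linarith

/-- the final combination -/
theorem combineRQ (Mm sK sJ s b g Z K m w A0 S1v Qv Tv Bv LB UB E1 E2 E3 E4 M₂ : ℝ)
    (hMm : 0 < Mm) (hs : 0 < s) (hb : 0 < b) (hg : 0 < g) (hsK : 0 < sK) (hsJ : sJ * s = sK * b ^ 2)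
    (hZ : 1 ≤ Z) (hm : 1 ≤ m) (hK : 0 < K)
    (hw : w = kap / (64 * g ^ 2)) (hA0 : A0 = w * s / b ^ 2)
    (hLB : LB = kap * (Z * Mm * sJ) - E2)
    (hUB : UB = Z * (Mm * (2 * (sK * (4 * g * b ^ 2 / s) ^ 2))) + E1)
    (H1 : S1v ≤ Z * (Mm * (2 * sK)) + E1) (H2 : m * A0 * LB - m * A0 ^ 2 * UB ≤ Qv)
    (H3 : Tv ≤ M₂ * (Mm * (2 * sK)) + E3) (H4 : Bv ≤ E4)
    (hE : m * A0 * E2 + m * A0 ^ 2 * E1 + etaQ g * m * E1 + K * E3 + K * E4 ≤ etaQ g * (Z * Mm * sK))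
    (hM₂ : K * M₂ ≤ etaQ g * Z) :
    0 < Qv - etaQ g * m * S1v - K * Tv - K * Bv := by
  set P := Z * Mm * sK with hP
  have hPpos : 0 < P := by rw [hP]; positivity
  have hη := etaQ_pos g hg
  have e1 : m * A0 * LB = m * (w * kap) * P - m * A0 * E2 := by
    have h1 : A0 * sJ = w * sK := by
      rw [hA0]
      have : w * s / b ^ 2 * sJ = w * (sJ * s) / b ^ 2 := by ring
      rw [this, hsJ]
      field_simp
    rw [hLB, hP]
    calc m * A0 * (kap * (Z * Mm * sJ) - E2) = m * kap * Z * Mm * (A0 * sJ) - m * A0 * E2 := by ring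
      _ = _ := by rw [h1]; ring
  have e2 : m * A0 ^ 2 * UB = m * (32 * g ^ 2 * w ^ 2) * P + m * A0 ^ 2 * E1 := by
    have h1 : A0 ^ 2 * (4 * g * b ^ 2 / s) ^ 2 = 16 * g ^ 2 * w ^ 2 := by
      rw [hA0]
      field_simp
      ring
    rw [hUB, hP]
    calc m * A0 ^ 2 * (Z * (Mm * (2 * (sK * (4 * g * b ^ 2 / s) ^ 2))) + E1)
        = m * 2 * Z * Mm * sK * (A0 ^ 2 * (4 * g * b ^ 2 / s) ^ 2) + m * A0 ^ 2 * E1 := by ring
      _ = _ := by rw [h1]; ring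
  have e3 : w * kap - 32 * g ^ 2 * w ^ 2 = 8 * etaQ g := by
    rw [hw]
    unfold etaQ
    field_simp
    ring
  have h1 : 8 * etaQ g * m * P - m * A0 * E2 - m * A0 ^ 2 * E1 ≤ Qv := by
    refine le_trans (le_of_eq ?_) H2
    rw [e1, e2, ← e3]
    ring
  have h2 : etaQ g * m * S1v ≤ 2 * (etaQ g * m * P) + etaQ g * m * E1 := by
    have := mul_le_mul_of_nonneg_left H1 (show 0 ≤ etaQ g * m by positivity)
    refine this.trans (le_of_eq ?_)
    rw [hP]; ring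
  have h3 : K * Tv ≤ 2 * (etaQ g * P) + K * E3 := by
    have h4 := mul_le_mul_of_nonneg_left H3 hK.le
    have h5 : K * M₂ * (Mm * (2 * sK)) ≤ etaQ g * Z * (Mm * (2 * sK)) :=
      mul_le_mul_of_nonneg_right hM₂ (by positivity)
    calc K * Tv ≤ K * (M₂ * (Mm * (2 * sK)) + E3) := h4
      _ = K * M₂ * (Mm * (2 * sK)) + K * E3 := by ring
      _ ≤ etaQ g * Z * (Mm * (2 * sK)) + K * E3 := by linarith
      _ = _ := by rw [hP]; ring
  have h4 : K * Bv ≤ K * E4 := mul_le_mul_of_nonneg_left H4 hK.le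
  have h5 : etaQ g * P ≤ etaQ g * m * P := by
    have : etaQ g * P * 1 ≤ etaQ g * P * m := mul_le_mul_of_nonneg_left hm (by positivity)
    linarith
  have h6 : 0 < etaQ g * P := by positivity
  linarith

end Pool.Agent.H362R2.RQ
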