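import Pool.Agent.H362R2.RQ.Shapes

set_option autoImplicit false

/-! RQ: uniformity of the theorem on shapes in the shape. -/

open Finset Filter

namespace Pool.Agent.H362R2.RQ

open Pool.Agent.H256R2.SC (ff)
open Pool.Agent.H312R2.RG.C3 (exists_prime_Ioc ff_tendsto ff_lower ff_small ff_upper)

theorem FinProp_mono {k : ℕ} {x : Fin k → ℝ} {R δ : ℝ} {q a : ℕ} {c c' F : ℝ} {n : ℕ} (hF : 0 ≤ F) (hcc : c ≤ c')
    (h : FinProp x R δ q a c' F n) : FinProp x R δ q a c F n := by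
  obtain ⟨L, h1, h2⟩ := h
  exact ⟨L, (mul_le_mul_of_nonneg_right hcc hF).trans h1, h2⟩

/-- a common constant for finitely many shapes -/
theorem shapes_finite (h : StRQ) {ι : Type} [Finite ι] (k : ι → ℕ) (hk : ∀ i, 1 ≤ k i) (x : ∀ i, Fin (k i) → ℝ)
    (hx : ∀ i, Function.Injective (x i)) (R δ : ℝ) (hR : 0 < R) (hδ : 0 < δ) :
    ∃ c : ℝ, 0 < c ∧ ∀ q a : ℕ, Squarefree q → a.Coprime q →
    ∀ᶠ X : ℝ in atTop, ∀ i : ι, ∀ F : ℝ, Real.log X ≤ F → F ≤ c * ff X →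
    X ^ (7 / 8 : ℝ) ≤ ({n : ℕ | X < n ∧ (n : ℝ) ≤ 4 * X ∧ FinProp (x i) R δ q a c F n}.ncard : ℝ) := by
  classical
  have hall : ∀ i, ∃ c : ℝ, 0 < c ∧ ∀ q a : ℕ, Squarefree q → a.Coprime q →
    ∀ᶠ X : ℝ in atTop, ∀ F : ℝ, Real.log X ≤ F → F ≤ c * ff X →
    X ^ (7 / 8 : ℝ) ≤ ({n : ℕ | X < n ∧ (n : ℝ) ≤ 4 * X ∧ FinProp (x i) R δ q a c F n}.ncard : ℝ) :=
    fun i => shapes_fin h (k i) (hk i) (x i) (hx i) R δ hR hδ
  choose c hc hev using hall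
  obtain ⟨c0, hc0, hc0le⟩ : ∃ c0 : ℝ, 0 < c0 ∧ ∀ i, c0 ≤ c i := by
    have := Fintype.ofFinite ι
    by_cases hne : (univ : Finset ι).Nonempty
    · obtain ⟨i0, _, hi0⟩ := Finset.exists_min_image univ c hne
      exact ⟨c i0, hc i0, fun i => hi0 i (mem_univ i)⟩
    · refine ⟨1, one_pos, fun i => ?_⟩
      exact absurd ⟨i, mem_univ i⟩ hne
  refine ⟨c0, hc0, ?_⟩
  intro q a hqsf haq
  have hev' : ∀ᶠ X : ℝ in atTop, ∀ i : ι, ∀ F : ℝ, Real.log X ≤ F → F ≤ c i * ff X →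
    X ^ (7 / 8 : ℝ) ≤ ({n : ℕ | X < n ∧ (n : ℝ) ≤ 4 * X ∧ FinProp (x i) R δ q a (c i) F n}.ncard : ℝ) :=
    Filter.eventually_all.2 fun i => hev i q a hqsf haq
  filter_upwards [hev', ff_tendsto.eventually_gt_atTop 0, Real.tendsto_log_atTop.eventually_gt_atTop 0]
    with X h1 h2 h3
  intro i F hlF hFc
  refine (h1 i F hlF (hFc.trans (mul_le_mul_of_nonneg_right (hc0le i) h2.le))).trans ?_
  have hfin : {n : ℕ | X < n ∧ (n : ℝ) ≤ 4 * X ∧ FinProp (x i) R δ q a c0 F n}.Finite := by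
    apply (Set.finite_Iic ⌊4 * X⌋₊).subset
    intro n hn
    rw [Set.mem_Iic]
    exact Nat.le_floor hn.2.1
  have hsub : {n : ℕ | X < n ∧ (n : ℝ) ≤ 4 * X ∧ FinProp (x i) R δ q a (c i) F n} ⊆
      {n : ℕ | X < n ∧ (n : ℝ) ≤ 4 * X ∧ FinProp (x i) R δ q a c0 F n} :=
    fun n hn => ⟨hn.1, hn.2.1, FinProp_mono (h3.le.trans hlF) (hc0le i) hn.2.2⟩
  exact_mod_cast Set.ncard_le_ncard hsub hfin

/-- the theorem on shapes, uniformly in the shape -/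
theorem shapes_unif (h : StRQ) (R δ : ℝ) (hR : 0 < R) (hδ : 0 < δ) :
    ∃ c : ℝ, 0 < c ∧ ∀ q a : ℕ, Squarefree q → a.Coprime q →
    ∀ᶠ X : ℝ in atTop, ∀ S : Set ℝ, ∀ F : ℝ, Real.log X ≤ F → F ≤ c * ff X →
    X ^ (7 / 8 : ℝ) ≤ ({n : ℕ | X < n ∧ (n : ℝ) ≤ 4 * X ∧ SetProp S R δ q a c F n}.ncard : ℝ) := by
  classical
  -- a finite net of [-R, R]
  obtain ⟨N, _, hNfin, hNcov⟩ := Metric.finite_approx_of_totallyBounded (totallyBounded_Icc (-R) R)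
    (δ / 2) (by linarith)
  set Nf : Finset ℝ := hNfin.toFinset with hNf
  have hcov : ∀ y : ℝ, |y| ≤ R → ∃ z ∈ Nf, |y - z| ≤ δ / 2 := by
    intro y hy
    have h1 := hNcov (abs_le.1 hy)
    rw [Set.mem_iUnion₂] at h1
    obtain ⟨z, hz, hyz⟩ := h1
    rw [Metric.mem_ball, Real.dist_eq] at hyz
    exact ⟨z, hNfin.mem_toFinset.2 hz, hyz.le⟩
  -- the shapes: the nonempty subsets of the net, and one point outside
  obtain ⟨c1, hc1, hev1⟩ := shapes_finite h (ι := ↥(Nf.powerset.filter (fun T => T.Nonempty)))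
    (fun T => T.1.card) (fun T => (Finset.mem_filter.1 T.2).2.card_pos) (fun T i => (T.1.equivFin.symm i : ℝ))
    (fun T i j hij => T.1.equivFin.symm.injective (Subtype.ext hij)) R (δ / 2) hR (by linarith)
  obtain ⟨c2, hc2, hev2⟩ := shapes_fin h 1 le_rfl (fun _ => R + 1) (fun _ _ _ => Subsingleton.elim _ _) R (1 / 2) hR
      (by norm_num)
  refine ⟨min c1 c2, lt_min hc1 hc2, ?_⟩
  intro q a hqsf haq
  filter_upwards [hev1 q a hqsf haq, hev2 q a hqsf haq, ff_tendsto.eventually_gt_atTop 0,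
    Real.tendsto_log_atTop.eventually_gt_atTop 0] with X hX1 hX2 hff hlog
  intro S F hlF hFc
  have hF0 : 0 < F := hlog.trans_le hlF
  have hcpos : 0 < min c1 c2 := lt_min hc1 hc2
  have hmono : ∀ (P : ℕ → Prop), (∀ n, P n → SetProp S R δ q a (min c1 c2) F n) →
      ({n : ℕ | X < n ∧ (n : ℝ) ≤ 4 * X ∧ P n}.ncard : ℝ) ≤
      ({n : ℕ | X < n ∧ (n : ℝ) ≤ 4 * X ∧ SetProp S R δ q a (min c1 c2) F n}.ncard : ℝ) := by
    intro P hP
    have hfin : {n : ℕ | X < n ∧ (n : ℝ) ≤ 4 * X ∧ SetProp S R δ q a (min c1 c2) F n}.Finite := by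
      apply (Set.finite_Iic ⌊4 * X⌋₊).subset
      intro n hn
      rw [Set.mem_Iic]
      exact Nat.le_floor hn.2.1
    have hsub : {n : ℕ | X < n ∧ (n : ℝ) ≤ 4 * X ∧ P n} ⊆
        {n : ℕ | X < n ∧ (n : ℝ) ≤ 4 * X ∧ SetProp S R δ q a (min c1 c2) F n} := fun n hn => ⟨hn.1, hn.2.1, hP n hn.2.2⟩
    exact_mod_cast Set.ncard_le_ncard hsub hfin
  set T : Finset ℝ := Nf.filter (fun z => ∃ y ∈ S, |y| ≤ R ∧ |y - z| ≤ δ / 2) with hT
  by_cases hne : T.Nonempty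
  · have hTmem : T ∈ Nf.powerset.filter (fun T => T.Nonempty) :=
      Finset.mem_filter.2 ⟨Finset.mem_powerset.2 (Finset.filter_subset _ _), hne⟩
    refine (hX1 ⟨T, hTmem⟩ F hlF (hFc.trans (mul_le_mul_of_nonneg_right (min_le_left _ _) hff.le))).trans (hmono _ ?_)
    rintro n ⟨L, hL, hLF, h1, h2⟩
    have hL' : min c1 c2 * F ≤ L := (mul_le_mul_of_nonneg_right (min_le_left _ _) hF0.le).trans hL
    have hL0 : 0 < L := (mul_pos hcpos hF0).trans_le hL'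
    refine ⟨L, hL', hLF, ?_, ?_⟩
    · intro p hp hpn
      obtain ⟨hpa, i, hi⟩ := h1 p hp hpn
      have hz : (T.equivFin.symm i : ℝ) ∈ T := (T.equivFin.symm i).2
      have hTiff : ∀ z ∈ T, ∃ y ∈ S, |y| ≤ R ∧ |y - z| ≤ δ / 2 := fun z hz => (mem_filter.1 hz).2
      obtain ⟨y, hyS, hyR, hyz⟩ := hTiff _ hz
      refine ⟨hpa, y, hyS, ?_⟩
      rw [← scale_iff _ _ _ _ _ hL0] at hi
      have h4 := abs_le.1 hi
      have h5 := abs_le.1 hyz
      rw [abs_le]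
      constructor <;> linarith
    · intro y hy hyR
      obtain ⟨z, hz, hyz⟩ := hcov y hyR
      have hzT : z ∈ T := by
        rw [hT, mem_filter]
        exact ⟨hz, y, hy, hyR, hyz⟩
      obtain ⟨p, hp, hpa, hpz⟩ := h2 (T.equivFin ⟨z, hzT⟩)
      simp only [Equiv.symm_apply_apply] at hpz
      refine ⟨p, hp, hpa, ?_⟩
      rw [← scale_iff _ _ _ _ _ hL0] at hpz
      have h4 := abs_le.1 hpz
      have h5 := abs_le.1 hyz
      rw [abs_le]
      constructor <;> linarith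
  · refine (hX2 F hlF (hFc.trans (mul_le_mul_of_nonneg_right (min_le_right _ _) hff.le))).trans (hmono _ ?_)
    rintro n ⟨L, hL, hLF, h1, _⟩
    have hL' : min c1 c2 * F ≤ L := (mul_le_mul_of_nonneg_right (min_le_right _ _) hF0.le).trans hL
    have hL0 : 0 < L := (mul_pos hcpos hF0).trans_le hL'
    refine ⟨L, hL', hLF, ?_, ?_⟩
    · intro p hp hpn
      exfalso
      obtain ⟨_, _, hi⟩ := h1 p hp hpn
      have h2 := (abs_le.1 hpn).2
      have h3 := (abs_le.1 hi).1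
      nlinarith
    · intro y hy hyR
      exfalso
      apply hne
      obtain ⟨z, hz, hyz⟩ := hcov y hyR
      exact ⟨z, by rw [hT, mem_filter]; exact ⟨hz, y, hy, hyR, hyz⟩⟩

end Pool.Agent.H362R2.RQ
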