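import Pool.Agent.H312R2.RG.VW
import Pool.Agent.H378R2.Final
import Pool.Agent.H362R2.RQ.Unif

set_option autoImplicit false

/-! RQ: the coloured Maynard-Tao theorem inside the record windows holds. -/

namespace Pool.Agent.H362R2.RQ

/-- (RQ) the coloured Maynard-Tao theorem inside the record windows -/
theorem stRQ : StRQ :=
  rq_of Pool.Agent.H378R2.sieveAsymp_holds Pool.Agent.H378R2.bvrel_holds covR0 Pool.Agent.H312R2.RG.weights

end Pool.Agent.H362R2.RQ
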