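import Mathlib
import Pool.Agent.H378R2.M7m
import Pool.Agent.H362R2.RQ.Fam

set_option autoImplicit false

open Finset MeasureTheory
open scoped ContDiff

/-! RQ: the extended family for a pair of indices. -/

namespace Pool.Agent.H362R2.RQ

open Pool.Agent.H378R2

/-- the extended family of functions -/
noncomputable def fX {B : ℕ} (f : Fin B → ℝ → ℝ) : Fin (B + B) → ℝ → ℝ := Fin.append f (fun _ => hs (1 / 4))

/-- the extended supports -/
noncomputable def cX {B : ℕ} (c : Fin B → ℝ) : Fin (B + B) → ℝ := Fin.append c (fun _ => 1 / 4)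

/-- the modified index -/
def aX {K B : ℕ} (i j : Fin K) (a : Fin K → Fin B) : Fin K → Fin (B + B) :=
  fun l => if l = i ∨ l = j then Fin.natAdd B (a l) else Fin.castAdd B (a l)

open Classical in
/-- the modified set of indices -/
noncomputable def AX {K B : ℕ} (i j : Fin K) (A : Finset (Fin K → Fin B)) : Finset (Fin K → Fin (B + B)) :=
  A.image (aX i j)

theorem aX_inj {K B : ℕ} (i j : Fin K) : Function.Injective (aX (B := B) i j) := by
  intro a b h
  funext l
  have h1 := congrFun h l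
  unfold aX at h1
  split_ifs at h1 with h2
  · exact (Fin.natAdd_inj _).1 h1
  · exact (Fin.castAdd_inj).1 h1

theorem AX_card {K B : ℕ} (i j : Fin K) (A : Finset (Fin K → Fin B)) : (AX i j A).card = A.card :=
  Finset.card_image_of_injective _ (aX_inj i j)

theorem fX_aX {K B : ℕ} (f : Fin B → ℝ → ℝ) (i j : Fin K) (a : Fin K → Fin B) (l : Fin K) :
    fX f (aX i j a l) = if l = i ∨ l = j then hs (1 / 4) else f (a l) := by
  unfold fX aX
  split_ifs
  · rw [Fin.append_right]
  · rw [Fin.append_left]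

theorem cX_aX {K B : ℕ} (c : Fin B → ℝ) (i j : Fin K) (a : Fin K → Fin B) (l : Fin K) :
    cX c (aX i j a l) = if l = i ∨ l = j then 1 / 4 else c (a l) := by
  unfold cX aX
  split_ifs
  · rw [Fin.append_right]
  · rw [Fin.append_left]

/-- every function of the extended family is one of the old ones or `hs (1/4)` -/
theorem fX_forall {B : ℕ} (f : Fin B → ℝ → ℝ) (P : (ℝ → ℝ) → Prop) (h1 : ∀ l, P (f l)) (h2 : P (hs (1 / 4))) :
    ∀ l, P (fX f l) := by
  intro l
  induction l using Fin.addCases with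
  | left l => unfold fX; rw [Fin.append_left]; exact h1 l
  | right l => unfold fX; rw [Fin.append_right]; exact h2

theorem fcX_forall {B : ℕ} (f : Fin B → ℝ → ℝ) (c : Fin B → ℝ) (P : (ℝ → ℝ) → ℝ → Prop)
    (h1 : ∀ l, P (f l) (c l)) (h2 : P (hs (1 / 4)) (1 / 4)) : ∀ l, P (fX f l) (cX c l) := by
  intro l
  induction l using Fin.addCases with
  | left l => unfold fX cX; rw [Fin.append_left, Fin.append_left]; exact h1 l
  | right l => unfold fX cX; rw [Fin.append_right, Fin.append_right]; exact h2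

theorem AX_sum {K B : ℕ} (c : Fin B → ℝ) (hc : ∀ l, 0 ≤ c l) (i j : Fin K) (A : Finset (Fin K → Fin B))
    (hA : ∀ a ∈ A, ∑ l, c (a l) ≤ 1 / 2) : ∀ a ∈ AX i j A, ∑ l, cX c (a l) ≤ 1 := by
  classical
  intro a ha
  unfold AX at ha
  rw [Finset.mem_image] at ha
  obtain ⟨b, hb, rfl⟩ := ha
  have h1 : ∀ l, cX c (aX i j b l) ≤ c (b l) + ((if l = i then 1 / 4 else 0) + (if l = j then 1 / 4 else 0)) := by
    intro l
    rw [cX_aX]
    have := hc (b l)
    split_ifs with h2 h3 h4 h5 <;> first | linarith | (exfalso; tauto)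
  refine (Finset.sum_le_sum fun l _ => h1 l).trans ?_
  rw [Finset.sum_add_distrib, Finset.sum_add_distrib, Finset.sum_ite_eq' univ i, Finset.sum_ite_eq' univ j,
    if_pos (Finset.mem_univ _), if_pos (Finset.mem_univ _)]
  have := hA b hb
  linarith

theorem II_AX {K B : ℕ} (f : Fin B → ℝ → ℝ) (rho : Fin B → ℝ) (s : ℝ) (hrho : ∀ l, 0 < rho l)
    (hs' : s = ∑ l, rho l) (hs0 : 0 < s) (hDD : ∀ l l', DD (f l) (f l') = if l = l' then rho l else 0)
    (i j : Fin K) (hij : i ≠ j) (A : Finset (Fin K → Fin B)) :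
    II (fX f) (AX i j A) ≤ s ^ K * (4 * gam * B ^ 2 / s) ^ 2 := by
  classical
  have hg := gam_pos
  set g : Fin K → Fin B → Fin B → ℝ := fun l u v => if l = i ∨ l = j then 4 * gam else DD (f u) (f v) with hgdef
  have hgnn : ∀ l u v, 0 ≤ g l u v := by
    intro l u v
    simp only [hgdef]
    split_ifs with h
    · positivity
    · rw [hDD]
      split_ifs
      · exact (hrho _).le
      · exact le_rfl
  have h1 : II (fX f) (AX i j A) = ∑ a ∈ A, ∑ b ∈ A, ∏ l, g l (a l) (b l) := by
    unfold II AX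
    rw [Finset.sum_image (fun a _ b _ h => aX_inj i j h)]
    refine Finset.sum_congr rfl fun a _ => ?_
    rw [Finset.sum_image (fun a _ b _ h => aX_inj i j h)]
    refine Finset.sum_congr rfl fun b _ => ?_
    refine Finset.prod_congr rfl fun l _ => ?_
    rw [fX_aX, fX_aX]
    simp only [hgdef]
    split_ifs with h
    · rw [DD_hs_self (by norm_num : (0 : ℝ) < 1 / 4)]
      ring
    · rfl
  have h2 : ∑ a ∈ A, ∑ b ∈ A, ∏ l, g l (a l) (b l) ≤ ∑ a : Fin K → Fin B, ∑ b : Fin K → Fin B, ∏ l, g l (a l) (b l) := by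
    have hp : ∀ a b : Fin K → Fin B, 0 ≤ ∏ l, g l (a l) (b l) := fun a b =>
      Finset.prod_nonneg fun l _ => hgnn _ _ _
    refine (Finset.sum_le_sum fun a _ => Finset.sum_le_sum_of_subset_of_nonneg (Finset.subset_univ A)
      (fun b _ _ => hp a b)).trans ?_
    exact Finset.sum_le_sum_of_subset_of_nonneg (Finset.subset_univ A)
      (fun a _ _ => Finset.sum_nonneg fun b _ => hp a b)
  have h3 : ∑ a : Fin K → Fin B, ∑ b : Fin K → Fin B, ∏ l, g l (a l) (b l) = ∏ l, ∑ u, ∑ v, g l u v := by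
    rw [← sum_prod_fun (fun l u => ∑ v, g l u v)]
    refine Finset.sum_congr rfl fun a _ => ?_
    rw [← sum_prod_fun (fun l v => g l (a l) v)]
  have h4 : ∀ l, ∑ u, ∑ v, g l u v = s * ((if l = i then 4 * gam * B ^ 2 / s else 1) *
      (if l = j then 4 * gam * B ^ 2 / s else 1)) := by
    intro l
    by_cases h : l = i ∨ l = j
    · have e1 : ∑ u, ∑ v, g l u v = 4 * gam * B ^ 2 := by
        simp only [hgdef, if_pos h]
        rw [Finset.sum_const, Finset.sum_const, Finset.card_univ, Fintype.card_fin, nsmul_eq_mul, nsmul_eq_mul]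
        ring
      rw [e1]
      rcases h with h | h
      · have h' : l ≠ j := by rw [h]; exact hij
        rw [if_pos h, if_neg h']
        field_simp
      · have h' : l ≠ i := by rw [h]; exact hij.symm
        rw [if_pos h, if_neg h']
        field_simp
    · have e1 : ∑ u, ∑ v, g l u v = s := by
        simp only [hgdef, if_neg h, hDD]
        rw [hs']
        refine Finset.sum_congr rfl fun u _ => ?_
        rw [Finset.sum_ite_eq, if_pos (Finset.mem_univ _)]
      push Not at h
      rw [e1, if_neg h.1, if_neg h.2]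
      ring
  rw [h1]
  refine h2.trans (le_of_eq ?_)
  rw [h3, Finset.prod_congr rfl (fun l _ => h4 l), Finset.prod_mul_distrib, Finset.prod_mul_distrib,
    Finset.prod_const, Finset.card_univ, Fintype.card_fin, Finset.prod_ite_eq', Finset.prod_ite_eq',
    if_pos (Finset.mem_univ _), if_pos (Finset.mem_univ _)]
  ring

theorem sqw_AX {K B : ℕ} (E : Finset ℕ) (X : ℝ) (f : Fin B → ℝ → ℝ) (hf0 : ∀ l, f l 0 = 1) (hR : 1 ≤ RR X)
    (A : Finset (Fin K → Fin B)) (i j : Fin K) (x : Fin K → ℤ) (p q : ℕ) (hp : p.Prime) (hq : q.Prime)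
    (hpR : RR X < p) (hqR : RR X < q) (hxi : x i = p) (hxj : x j = q) :
    sqw E X (fX f) (AX i j A) x = sqw E X f A x := by
  classical
  unfold sqw AX
  rw [Finset.sum_image (fun a _ b _ h => aX_inj i j h)]
  refine Finset.sum_congr rfl fun a _ => ?_
  refine Finset.prod_congr rfl fun l _ => ?_
  rw [fX_aX]
  split_ifs with h
  · rcases h with h | h
    · rw [h, hxi, VV_prime E (RR X) hR (LL X) _ p hp hpR, VV_prime E (RR X) hR (LL X) _ p hp hpR, hf0,
        hs_at_zero]
    · rw [h, hxj, VV_prime E (RR X) hR (LL X) _ q hq hqR, VV_prime E (RR X) hR (LL X) _ q hq hqR, hf0,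
        hs_at_zero]
  · rfl

end Pool.Agent.H362R2.RQ
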