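import Pool.Agent.H312R2.RG.L1
import Pool.Agent.H362R2.RQ.Pair

set_option autoImplicit false

/-! RQ: the upper bound for the pairs. -/

open Finset Filter
open scoped ContDiff

namespace Pool.Agent.H362R2.RQ

open Pool.Agent.H378R2
open Pool.Agent.H312R2.RG (ClassA ClassB tot S1_boundV)

/-- normalised weight of the primes -/
noncomputable def thn (X : ℝ) (n : ℕ) : ℝ := th n / Real.log (4 * X)

theorem thn_nonneg (X : ℝ) (hX : 1 ≤ X) (n : ℕ) : 0 ≤ thn X n :=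
  div_nonneg (th_nonneg n) (Real.log_nonneg (by linarith))

theorem thn_le (X : ℝ) (hX : 1 ≤ X) (n : ℕ) (hn : (n : ℝ) ≤ 4 * X) : thn X n ≤ if n.Prime then 1 else 0 := by
  have hl : 0 < Real.log (4 * X) := Real.log_pos (by linarith)
  unfold thn th
  split_ifs with hp
  · rw [div_le_one hl]
    exact Real.log_le_log (by exact_mod_cast hp.pos) hn
  · rw [zero_div]

theorem thn_le_one (X : ℝ) (hX : 1 ≤ X) (n : ℕ) (hn : (n : ℝ) ≤ 4 * X) : thn X n ≤ 1 := by
  refine (thn_le X hX n hn).trans ?_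
  split_ifs <;> norm_num

theorem thn_eq_zero (X : ℝ) (n : ℕ) (hn : ¬ n.Prime) : thn X n = 0 := by
  unfold thn th
  rw [if_neg hn, zero_div]

theorem ev_RR : ∀ᶠ X : ℝ in atTop, 1 ≤ RR X ∧ (RR X : ℝ) < X := by
  filter_upwards [LL_tendsto.eventually_ge_atTop 1, eventually_gt_atTop 1] with X h1 h2
  have hlog : 0 < Real.log X := Real.log_pos h2
  constructor
  · unfold RR
    apply Nat.le_floor
    rw [Nat.cast_one]
    exact Real.one_le_exp (by linarith)
  · unfold RR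
    calc (⌊Real.exp (LL X)⌋₊ : ℝ) ≤ Real.exp (LL X) := Nat.floor_le (Real.exp_pos _).le
      _ < Real.exp (Real.log X) := by
          apply Real.exp_lt_exp.2
          unfold LL
          linarith
      _ = X := Real.exp_log (by linarith)

theorem pair_boundV (h5 : SieveAsymp) {K B : ℕ} (f : Fin B → ℝ → ℝ) (c rho : Fin B → ℝ) (s : ℝ)
    (A : Finset (Fin K → Fin B))
    (hsm : ∀ l, ContDiff ℝ ∞ (f l)) (hcs : ∀ l, HasCompactSupport (f l)) (hf0 : ∀ l x, c l < x → f l x = 0)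
    (hc : ∀ l, 0 ≤ c l ∧ c l ≤ 1 / 2) (hA : ∀ a ∈ A, ∑ j, c (a j) ≤ 1 / 2) (hf1 : ∀ l x, |f l x| ≤ 1)
    (hf00 : ∀ l, f l 0 = 1) (hrho : ∀ l, 0 < rho l) (hs' : s = ∑ l, rho l) (hs0 : 0 < s)
    (hDD : ∀ l l', DD (f l) (f l') = if l = l' then rho l else 0)
    (ε1 : ℝ) (hε1 : 0 < ε1) :
    ∀ᶠ X : ℝ in atTop, ∀ i j : Fin K, i ≠ j → ∀ (Z ps : ℕ) (S : Finset ℕ) (a0 : ℕ) (t : Fin K → ℕ),
      GoodP Z ps → GoodS X S →
      ∀ E : Finset ℕ, EE X S ps ⊆ E → E ⊆ Esup X ps →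
      (∀ i j, i ≠ j → ∀ p : ℕ, p.Prime → p ∉ E → ¬ (p : ℤ) ∣ (t i : ℤ) - t j) →
      (∀ j, (t j : ℝ) ≤ X) →
      ∀ (G : ℤ → ℝ) (M : ℝ) (err : ℕ → ℝ), (∀ a, 0 ≤ G a) → 0 ≤ M → (∀ q, 0 ≤ err q) →
      ClassA X (WW X S ps) ps t G M err →
      ∑ n ∈ Icc 1 ⌊3 * X⌋₊, (nu X (WW X S ps) a0 n * sqw E X f A (fun j => (n : ℤ) + t j) ^ 2 * G n) *
          (thn X (n + t i) * thn X (n + t j)) ≤
        M * ((MPhi X * (1 / (WW X S ps : ℝ))) * (1 / (LL X * BE E) ^ K) *
          (s ^ K * (4 * gam * B ^ 2 / s) ^ 2 + ε1)) +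
          (A.card : ℝ) ^ 2 * tot K X (WW X S ps) ps err := by
  classical
  have hev : ∀ i j : Fin K, ∀ᶠ X : ℝ in atTop, i ≠ j → ∀ (Z ps : ℕ) (S : Finset ℕ) (a0 : ℕ) (t : Fin K → ℕ),
      GoodP Z ps → GoodS X S →
      ∀ E : Finset ℕ, EE X S ps ⊆ E → E ⊆ Esup X ps →
      (∀ i j, i ≠ j → ∀ p : ℕ, p.Prime → p ∉ E → ¬ (p : ℤ) ∣ (t i : ℤ) - t j) →
      ∀ (G : ℤ → ℝ) (M : ℝ) (err : ℕ → ℝ), 0 ≤ M → (∀ q, 0 ≤ err q) →
      ClassA X (WW X S ps) ps t G M err →
      ∑ n ∈ Icc 1 ⌊3 * X⌋₊, nu X (WW X S ps) a0 n *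
          (sqw E X (fX f) (AX i j A) (fun j => (n : ℤ) + t j) ^ 2 * G n) ≤
        M * ((MPhi X * (1 / (WW X S ps : ℝ))) * (1 / (LL X * BE E) ^ K) *
          (s ^ K * (4 * gam * B ^ 2 / s) ^ 2 + ε1)) +
          (A.card : ℝ) ^ 2 * tot K X (WW X S ps) ps err := by
    intro i j
    by_cases hij : i = j
    · exact Eventually.of_forall fun X h => absurd hij h
    · have hIIle := II_AX f rho s hrho hs' hs0 hDD i j hij A
      have h14 : (0 : ℝ) < 1 / 4 := by norm_num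
      have hS := S1_boundV h5 (fX f) (cX c) (AX i j A)
        (fX_forall f (fun g => ContDiff ℝ ∞ g) hsm (hs_smooth _))
        (fX_forall f (fun g => HasCompactSupport g) hcs (hs_compact h14))
        (fcX_forall f c (fun g c => ∀ x, c < x → g x = 0) hf0
          (fun x hx => hs_zero h14 (hx.le.trans (le_abs_self x))))
        (fcX_forall f c (fun _ c => 0 ≤ c ∧ c ≤ 1 / 2) hc ⟨h14.le, by norm_num⟩)
        (AX_sum c (fun l => (hc l).1) i j A hA)
        (fX_forall f (fun g => ∀ x, |g x| ≤ 1) hf1 (fun x => hs_abs_le _ _)) ε1 hε1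
      filter_upwards [hS, EE_facts 0, eventually_ge_atTop 4, LL_tendsto.eventually_ge_atTop 1] with X h1 h2 h4 h6
      intro _ Z ps S a0 t hps hSS E hEE hEsup hres G M err hM herr hcl
      refine (h1 Z ps S a0 t hps hSS E hEE hEsup hres G M err hM herr hcl).trans ?_
      rw [AX_card]
      have hBE : 0 < BE E := BE_pos fun p hp => Esup_prime (hEsup hp)
      have hMnn : 0 ≤ MPhi X := Finset.sum_nonneg fun n _ => Phi_nonneg _
      have hLB : 0 < LL X * BE E := by positivity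
      gcongr
  have hev' := (Filter.eventually_all.2 fun i => Filter.eventually_all.2 fun j => hev i j)
  filter_upwards [hev', ev_RR, eventually_ge_atTop 4] with X h1 h2 h4
  intro i j hij Z ps S a0 t hps hS E hEE hEsup hres htX G M err hG hM herr hcl
  refine le_trans (Finset.sum_le_sum fun n hn => ?_) (h1 i j hij Z ps S a0 t hps hS E hEE hEsup hres G M err hM herr hcl)
  set W := WW X S ps with hW
  have hnn : 0 ≤ nu X W a0 n := nu_nonneg _ _ _ _
  have hR0 : 0 ≤ nu X W a0 n * (sqw E X (fX f) (AX i j A) (fun j => (n : ℤ) + t j) ^ 2 * G n) :=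
    mul_nonneg hnn (mul_nonneg (sq_nonneg _) (hG _))
  rcases hnn.eq_or_lt with h0 | h0
  · rw [← h0, zero_mul, zero_mul, zero_mul, zero_mul]
  by_cases hpi : (n + t i).Prime
  swap
  · rw [thn_eq_zero X _ hpi, zero_mul, mul_zero]; exact hR0
  by_cases hpj : (n + t j).Prime
  swap
  · rw [thn_eq_zero X _ hpj, mul_zero, mul_zero]; exact hR0
  have hXn : X < n := by
    by_contra hle
    push Not at hle
    apply h0.ne'
    unfold nu
    rw [Phi_eq_zero_of_le (by positivity) (by rw [div_le_one (by linarith)]; exact hle), ite_self]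
  have hRn : RR X < n := by
    have h3 : (RR X : ℝ) < n := h2.2.trans hXn
    exact_mod_cast h3
  have hn3 : (n : ℝ) ≤ 3 * X := by
    rw [Finset.mem_Icc] at hn
    exact (Nat.cast_le.2 hn.2).trans (Nat.floor_le (by linarith))
  have hn4 : ∀ k : Fin K, ((n + t k : ℕ) : ℝ) ≤ 4 * X := by
    intro k
    push_cast
    have := htX k
    linarith
  rw [sqw_AX E X f hf00 h2.1 A i j (fun j => (n : ℤ) + t j) (n + t i) (n + t j) hpi hpj (by omega) (by omega)
    (by push_cast; rfl) (by push_cast; rfl)]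
  have h6 : thn X (n + t i) * thn X (n + t j) ≤ 1 := by
    calc thn X (n + t i) * thn X (n + t j) ≤ 1 * 1 :=
          mul_le_mul (thn_le_one X (by linarith) _ (hn4 i)) (thn_le_one X (by linarith) _ (hn4 j))
            (thn_nonneg X (by linarith) _) zero_le_one
      _ = 1 := one_mul 1
  have h7 : 0 ≤ nu X W a0 n * sqw E X f A (fun j => (n : ℤ) + t j) ^ 2 * G n :=
    mul_nonneg (mul_nonneg hnn (sq_nonneg _)) (hG _)
  calc (nu X W a0 n * sqw E X f A (fun j => (n : ℤ) + t j) ^ 2 * G n) * (thn X (n + t i) * thn X (n + t j))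
      ≤ (nu X W a0 n * sqw E X f A (fun j => (n : ℤ) + t j) ^ 2 * G n) * 1 :=
        mul_le_mul_of_nonneg_left h6 h7
    _ = _ := by ring

end Pool.Agent.H362R2.RQ
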