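import Pool.Agent.H312R2.RG.C3a
import Pool.Agent.H378R2.M7m

set_option autoImplicit false

/-! RQ: primes of a residue class in the intervals `(y, (1+δ) y]`. -/

open Finset Filter Topology

namespace Pool.Agent.H362R2.RQ

theorem exists_prime_mod (q : ℕ) (hq : 0 < q) (a : ℕ) (ha : a.Coprime q) (δ : ℝ) (hδ : 0 < δ) :
    ∀ᶠ y : ℝ in atTop, ∃ p : ℕ, p.Prime ∧ p ≡ a [MOD q] ∧ y < p ∧ (p : ℝ) ≤ (1 + δ) * y := by
  haveI : NeZero q := ⟨hq.ne'⟩
  have hu : IsUnit (a : ZMod q) := (ZMod.isUnit_iff_coprime a q).2 ha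
  set F : ℝ → ℝ := fun x => ∑ k ∈ Finset.Icc 1 ⌊x⌋₊,
      ArithmeticFunction.vonMangoldt.residueClass (a : ZMod q) k with hF
  have h1 : Tendsto (fun x : ℝ => F x / x) atTop (𝓝 ((q.totient : ℝ)⁻¹)) :=
    Pool.Agent.Helper923.PNT.pnt_residueClass hu
  have hφ : (0 : ℝ) < (q.totient : ℝ)⁻¹ := by
    have : 0 < q.totient := Nat.totient_pos.2 hq
    positivity
  have h2 : Tendsto (fun y : ℝ => F ((1 + δ) * y) / y) atTop (𝓝 ((1 + δ) * (q.totient : ℝ)⁻¹)) := by
    have h3 : Tendsto (fun y : ℝ => (1 + δ) * y) atTop atTop :=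
      tendsto_id.const_mul_atTop (by linarith)
    have h4 := (h1.comp h3).const_mul (1 + δ)
    refine h4.congr' ?_
    filter_upwards [eventually_gt_atTop 0] with y hy
    simp only [Function.comp]
    have : 1 + δ ≠ 0 := by linarith
    field_simp
  have h5 := (h2.sub h1).eventually (lt_mem_nhds (show δ * (q.totient : ℝ)⁻¹ / 2 <
    (1 + δ) * (q.totient : ℝ)⁻¹ - (q.totient : ℝ)⁻¹ by nlinarith))
  have h6 : ∀ᶠ y : ℝ in atTop, 2 * Real.sqrt ((1 + δ) * y) * Real.log ((1 + δ) * y) ≤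
      δ * (q.totient : ℝ)⁻¹ / 2 * y := by
    have e1 := (isLittleO_log_rpow_atTop (show (0 : ℝ) < 1 / 4 by norm_num)).def (show (0 : ℝ) < 1 by norm_num)
    have e2 : Tendsto (fun y : ℝ => (1 + δ) * y) atTop atTop := tendsto_id.const_mul_atTop (by linarith)
    have e3 := e2.eventually e1
    have e4 : ∀ᶠ x : ℝ in atTop, 2 * (1 + δ) / (δ * (q.totient : ℝ)⁻¹ / 2) ≤ x ^ (1 / 4 : ℝ) :=
      (tendsto_rpow_atTop (show (0 : ℝ) < 1 / 4 by norm_num)).eventually_ge_atTop _
    filter_upwards [e3, e2.eventually e4, e2.eventually_ge_atTop 1, eventually_gt_atTop (0 : ℝ)] with y h7 h8 h9 h10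
    set x := (1 + δ) * y with hx
    rw [one_mul, Real.norm_of_nonneg (Real.log_nonneg h9), Real.norm_of_nonneg (Real.rpow_nonneg (by linarith) _)] at h7
    set w := x ^ (1 / 4 : ℝ) with hw
    have hw0 : 0 ≤ w := Real.rpow_nonneg (by linarith) _
    have hw4 : w ^ 4 = x := by
      rw [hw, ← Real.rpow_natCast, ← Real.rpow_mul (by linarith)]; norm_num
    have hsq : Real.sqrt x = w ^ 2 := by
      rw [← hw4, show w ^ 4 = (w ^ 2) ^ 2 by ring, Real.sqrt_sq (by positivity)]
    rw [hsq]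
    have hd : 0 < δ * (q.totient : ℝ)⁻¹ / 2 := by positivity
    rw [div_le_iff₀ hd] at h8
    have h11 : 2 * w ^ 2 * Real.log x ≤ 2 * w ^ 3 := by
      calc 2 * w ^ 2 * Real.log x ≤ 2 * w ^ 2 * w := mul_le_mul_of_nonneg_left h7 (by positivity)
        _ = _ := by ring
    refine h11.trans ?_
    have h12 : 2 * w ^ 3 * (1 + δ) ≤ (δ * (q.totient : ℝ)⁻¹ / 2 * y) * (1 + δ) := by
      calc 2 * w ^ 3 * (1 + δ) = (2 * (1 + δ)) * w ^ 3 := by ring
        _ ≤ (w * (δ * (q.totient : ℝ)⁻¹ / 2)) * w ^ 3 := mul_le_mul_of_nonneg_right h8 (by positivity)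
        _ = δ * (q.totient : ℝ)⁻¹ / 2 * w ^ 4 := by ring
        _ = _ := by rw [hw4, hx]; ring
    exact le_of_mul_le_mul_right h12 (by linarith)
  filter_upwards [h5, h6, eventually_ge_atTop (1 : ℝ)] with y hy hy6 hy1
  by_contra hcon
  push Not at hcon
  have hy0 : 0 < y := by linarith
  set x := (1 + δ) * y with hx
  have hyx : y ≤ x := by rw [hx]; nlinarith
  have hfl : ⌊y⌋₊ ≤ ⌊x⌋₊ := Nat.floor_le_floor hyx
  have h7 : F x - F y ≤ 2 * Real.sqrt x * Real.log x := by
    have h8 : F x - F y = ∑ k ∈ Finset.Ioc ⌊y⌋₊ ⌊x⌋₊, ArithmeticFunction.vonMangoldt.residueClass (a : ZMod q) k := by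
      have h9 : Finset.Icc 1 ⌊x⌋₊ = Finset.Icc 1 ⌊y⌋₊ ∪ Finset.Ioc ⌊y⌋₊ ⌊x⌋₊ := by
        ext k
        rw [mem_union, mem_Icc, mem_Icc, mem_Ioc]
        omega
      have h10 : Disjoint (Finset.Icc 1 ⌊y⌋₊) (Finset.Ioc ⌊y⌋₊ ⌊x⌋₊) := by
        rw [Finset.disjoint_left]
        intro k hk hk'
        rw [mem_Icc] at hk
        rw [mem_Ioc] at hk'
        omega
      simp only [hF]
      rw [h9, Finset.sum_union h10]
      ring
    rw [h8]
    refine le_trans ?_ (Pool.Agent.H378R2.sum_nonprime_le x (by linarith))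
    have h11 : ∀ k ∈ Finset.Ioc ⌊y⌋₊ ⌊x⌋₊, ArithmeticFunction.vonMangoldt.residueClass (a : ZMod q) k ≤
        if k.Prime then 0 else ArithmeticFunction.vonMangoldt k := by
      intro k hk
      rw [mem_Ioc] at hk
      split_ifs with hp
      · have h12 : ¬ ((k : ZMod q) = (a : ZMod q)) := by
          intro h13
          have h14 : k ≡ a [MOD q] := (ZMod.natCast_eq_natCast_iff k a q).1 h13
          have h15 : y < k := (Nat.floor_lt hy0.le).1 hk.1
          have h16 := hcon k hp h14 h15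
          have h17 : (k : ℝ) ≤ x := (Nat.le_floor_iff (by linarith)).1 hk.2
          linarith
        have : ArithmeticFunction.vonMangoldt.residueClass (a : ZMod q) k = 0 := by
          unfold ArithmeticFunction.vonMangoldt.residueClass
          rw [Set.indicator_of_notMem]
          exact h12
        rw [this]
      · exact ArithmeticFunction.vonMangoldt.residueClass_le _ k
    refine (Finset.sum_le_sum h11).trans ?_
    rw [Finset.sum_filter]
    have h12 : ∀ k, (if k.Prime then (0 : ℝ) else ArithmeticFunction.vonMangoldt k) =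
        if ¬ k.Prime then ArithmeticFunction.vonMangoldt k else 0 := by
      intro k
      by_cases h : k.Prime
      · rw [if_pos h, if_neg (not_not.2 h)]
      · rw [if_neg h, if_pos h]
    simp_rw [h12]
    apply Finset.sum_le_sum_of_subset_of_nonneg
    · intro k hk
      rw [mem_Ioc] at hk
      rw [mem_Icc]
      omega
    · intro k _ _
      split_ifs
      · exact le_rfl
      · exact ArithmeticFunction.vonMangoldt_nonneg
  have h8 : δ * (q.totient : ℝ)⁻¹ / 2 * y < F x - F y := by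
    have h9 : δ * (q.totient : ℝ)⁻¹ / 2 < (F x - F y) / y := by
      rw [sub_div]; exact hy
    rwa [lt_div_iff₀ hy0] at h9
  linarith

end Pool.Agent.H362R2.RQ
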