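import Pool.Agent.H312R2.RG.C3a
import Pool.Agent.H362R2.RQ.Main
import Pool.Agent.H362R2.RQ.PrimeAP

set_option autoImplicit false

/-! RQ: placing primes near prescribed positions of a record window. -/

open Finset Filter

namespace Pool.Agent.H362R2.RQ

open Pool.Agent.H378R2 (yy)
open Pool.Agent.H256R2.SC (ff)
open Pool.Agent.H312R2.RG.C3 (exists_prime_Ioc ff_tendsto ff_lower ff_small)

/-- the colouring `j ↦ j mod m` -/
def cmod (K m : ℕ) (hm : 0 < m) (j : Fin K) : Fin m := ⟨j % m, Nat.mod_lt _ hm⟩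

theorem fib_cmod (K m : ℕ) (hm : 0 < m) (hmK : m ≤ K) (d : Fin m) : K ≤ 2 * m * fib (cmod K m hm) d := by
  classical
  have h1 : K / m ≤ fib (cmod K m hm) d := by
    unfold fib
    have h2 : (Finset.range (K / m)).card ≤ (univ.filter (fun i : Fin K => cmod K m hm i = d)).card := by
      have hlt : ∀ v ∈ Finset.range (K / m), (d : ℕ) + m * v < K := by
        intro v hv
        rw [Finset.mem_range] at hv
        have h3 : m * (v + 1) ≤ m * (K / m) := Nat.mul_le_mul_left m hv
        have h4 : m * (K / m) ≤ K := Nat.mul_div_le K m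
        have h5 := d.2
        rw [Nat.mul_add, Nat.mul_one] at h3
        omega
      apply Finset.card_le_card_of_injOn (fun v => if h : (d : ℕ) + m * v < K then (⟨d + m * v, h⟩ : Fin K)
        else ⟨0, by omega⟩)
      · intro v hv
        have h3 := hlt v hv
        simp only [dif_pos h3, coe_filter, mem_univ, true_and, Set.mem_ofPred_eq]
        apply Fin.ext
        simp only [cmod]
        rw [Nat.add_mul_mod_self_left, Nat.mod_eq_of_lt d.2]
      · intro v hv v' hv' h
        have h3 := hlt v hv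
        have h4 := hlt v' hv'
        simp only [dif_pos h3, dif_pos h4, Fin.mk.injEq] at h
        have h5 : m * v = m * v' := by omega
        exact Nat.eq_of_mul_eq_mul_left hm h5
    rwa [Finset.card_range] at h2
  have h2 : K < m * (K / m) + m := by
    have := Nat.lt_mul_div_succ K hm
    rwa [Nat.mul_add, Nat.mul_one] at this
  have h3 : 1 ≤ K / m := Nat.div_pos hmK hm
  have h4 : m * 1 ≤ m * (K / m) := Nat.mul_le_mul_left m h3
  have h5 : m * (K / m) ≤ m * fib (cmod K m hm) d := Nat.mul_le_mul_left m h1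
  have h6 : 2 * m * fib (cmod K m hm) d = m * fib (cmod K m hm) d + m * fib (cmod K m hm) d := by ring
  omega

theorem dvd_of_primes (q n : ℕ) (hq : Squarefree q) (h : ∀ p : ℕ, p.Prime → p ∣ q → p ∣ n) : q ∣ n := by
  rw [← Nat.prod_primeFactors_of_squarefree hq]
  apply Finset.prod_primes_dvd
  · intro p hp
    exact (Nat.prime_of_mem_primeFactors hp).prime
  · intro p hp
    exact h p (Nat.prime_of_mem_primeFactors hp) (Nat.dvd_of_mem_primeFactors hp)

/-- windows with prescribed positions: for `m` positions `u d` (of size at most `D`, at distances `> 2`),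
in a window of length `F`, `log X ≤ F ≤ c ff X`, with the unit `F / (8 D ρ)`; the primes of the window
are all `≡ a` modulo the squarefree `q` -/
theorem place_of (h : StRQ) : ∃ η : ℝ, 0 < η ∧ ∀ (m : ℕ), 1 ≤ m → ∃ c : ℝ, 0 < c ∧
    ∀ (u : Fin m → ℝ) (D ρ : ℝ), 1 ≤ D → 1 ≤ ρ →
    (∀ d, |u d| ≤ D) → (∀ d d', d ≠ d' → 2 < |u d - u d'|) →
    ∀ q a : ℕ, Squarefree q → a.Coprime q →
    ∃ X0 : ℝ, ∀ X : ℝ, X0 ≤ X → ∀ F : ℝ, Real.log X ≤ F → F ≤ c * ff X →
    ∀ bad : Finset ℕ, (bad.card : ℝ) ≤ X ^ (9 / 10 : ℝ) →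
    ∃ n : ℕ, X < n ∧ (n : ℝ) ≤ 3 * X ∧ n ∉ bad ∧
      (∃ G : Finset (Fin m), η * m ≤ G.card ∧ ∀ d ∈ G, ∃ s : ℕ, (n + s).Prime ∧
        |((s : ℝ) - F / 2) / (F / (8 * D * ρ)) - u d| ≤ 1) ∧
      ∀ s : ℕ, (s : ℝ) ≤ F → (n + s).Prime → n + s ≡ a [MOD q] ∧
        ∃ d, |((s : ℝ) - F / 2) / (F / (8 * D * ρ)) - u d| ≤ 1 := by
  obtain ⟨η, hη, hmain⟩ := h
  refine ⟨η, hη, ?_⟩
  intro m hm
  obtain ⟨K, hmK, c, hc, hX1'⟩ := hmain m hm
  refine ⟨c, hc, ?_⟩
  intro u D ρ hD hρ huD husep q a hqsf haq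
  have hq0 : 0 < q := Nat.pos_of_ne_zero hqsf.ne_zero
  obtain ⟨X1, hX1⟩ := hX1' q
  have hm0 : 0 < m := hm
  have hK0 : 0 < K := by omega
  have hKr : (0 : ℝ) < K := by exact_mod_cast hK0
  obtain ⟨ε, hε⟩ : ∃ ε : ℝ, ε = 1 / (8 * D * ρ * K) := ⟨_, rfl⟩
  have hD0 : 0 < D := by linarith
  have hρ0 : 0 < ρ := by linarith
  have hεpos : 0 < ε := by rw [hε]; positivity
  obtain ⟨Y0, hY0⟩ := Filter.eventually_atTop.1 (exists_prime_mod q hq0 a haq ε hεpos)
  have hev : ∀ᶠ X : ℝ in atTop, ∀ F : ℝ, Real.log X ≤ F → F ≤ c * ff X →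
      ∀ bad : Finset ℕ, (bad.card : ℝ) ≤ X ^ (9 / 10 : ℝ) →
      ∃ n : ℕ, X < n ∧ (n : ℝ) ≤ 3 * X ∧ n ∉ bad ∧
      (∃ G : Finset (Fin m), η * m ≤ G.card ∧ ∀ d ∈ G, ∃ s : ℕ, (n + s).Prime ∧
        |((s : ℝ) - F / 2) / (F / (8 * D * ρ)) - u d| ≤ 1) ∧
      ∀ s : ℕ, (s : ℝ) ≤ F → (n + s).Prime → n + s ≡ a [MOD q] ∧
        ∃ d, |((s : ℝ) - F / 2) / (F / (8 * D * ρ)) - u d| ≤ 1 := by
    filter_upwards [eventually_ge_atTop X1, Real.tendsto_log_atTop.eventually_ge_atTop (4 * |Y0| + 4)]
      with X hXX1 hlX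
    intro F hlF hFc bad hbad
    have hF : 4 * |Y0| + 4 ≤ F := hlX.trans hlF
    have hFpos : 0 < F := by
      have := abs_nonneg Y0
      linarith
    set s0 := F / (8 * D * ρ) with hs0
    have hs0pos : 0 < s0 := by rw [hs0]; positivity
    have hs0D : s0 * D * ρ = F / 8 := by rw [hs0]; field_simp
    have hDρ : D ≤ D * ρ := by nlinarith
    have hs0D' : s0 * D ≤ F / 8 := by
      rw [← hs0D]
      have : s0 * D * 1 ≤ s0 * D * ρ := mul_le_mul_of_nonneg_left hρ (by positivity)
      linarith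
    have hs0F : s0 ≤ F / 8 := by
      have : s0 * 1 ≤ s0 * D := mul_le_mul_of_nonneg_left hD hs0pos.le
      linarith
    have hεs : ε * F = s0 / K := by rw [hε, hs0]; field_simp
    set col := cmod K m hm0 with hcol
    set Ug : Fin m → ℝ := fun d => F / 2 + s0 * u d with hUg
    have hsu : ∀ d, |s0 * u d| ≤ F / 8 := by
      intro d
      rw [abs_mul, abs_of_pos hs0pos]
      exact (mul_le_mul_of_nonneg_left (huD d) hs0pos.le).trans hs0D'
    set y : Fin K → ℝ := fun j => Ug (col j) + s0 / K * j with hy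
    have hjK : ∀ j : Fin K, 0 ≤ s0 / K * (j : ℝ) ∧ s0 / K * ((j : ℝ) + 1) ≤ s0 := by
      intro j
      constructor
      · positivity
      · have h1 : ((j : ℕ) : ℝ) + 1 ≤ K := by exact_mod_cast j.2
        calc s0 / K * ((j : ℝ) + 1) ≤ s0 / K * K := mul_le_mul_of_nonneg_left h1 (by positivity)
          _ = s0 := by field_simp
    have hylow : ∀ j, F / 4 ≤ y j := by
      intro j
      have h1 := abs_le.1 (hsu (col j))
      have h2 := (hjK j).1
      simp only [hy, hUg]
      linarith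
    have hyup : ∀ j, y j ≤ F := by
      intro j
      have h1 := abs_le.1 (hsu (col j))
      have h2 := (hjK j).2
      have h3 : s0 / K * (j : ℝ) ≤ s0 / K * ((j : ℝ) + 1) := mul_le_mul_of_nonneg_left (by linarith) (by positivity)
      simp only [hy, hUg]
      linarith
    have hex : ∀ j, ∃ p : ℕ, p.Prime ∧ p ≡ a [MOD q] ∧ y j < p ∧ (p : ℝ) ≤ y j + s0 / K := by
      intro j
      have h1 := hylow j
      obtain ⟨p, hp, hpa, hp1, hp2⟩ := hY0 (y j) (by
        have := le_abs_self Y0
        linarith)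
      refine ⟨p, hp, hpa, hp1, hp2.trans ?_⟩
      have h2 : ε * y j ≤ ε * F := mul_le_mul_of_nonneg_left (hyup j) hεpos.le
      linarith
    choose t htp hta htl htu using hex
    have htup : ∀ j, (t j : ℝ) ≤ Ug (col j) + s0 / K * ((j : ℝ) + 1) := by
      intro j
      have h1 := htu j
      simp only [hy] at h1
      linarith
    have htUg : ∀ j, Ug (col j) < t j ∧ (t j : ℝ) ≤ Ug (col j) + s0 := by
      intro j
      have h1 := htl j
      have h2 := (hjK j).1
      have h3 := (hjK j).2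
      have h4 := htup j
      simp only [hy] at h1
      constructor <;> linarith
    have htsc : ∀ j, |((t j : ℝ) - F / 2) / s0 - u (col j)| ≤ 1 := by
      intro j
      have h1 := htUg j
      have e1 : ((t j : ℝ) - F / 2) / s0 - u (col j) = ((t j : ℝ) - Ug (col j)) / s0 := by
        simp only [hUg]
        field_simp
        ring
      rw [e1, abs_div, abs_of_pos hs0pos, div_le_one hs0pos, abs_le]
      constructor <;> linarith
    have htinj : Function.Injective t := by
      intro j j' hjj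
      have hcc : col j = col j' := by
        by_contra hne
        have h1 := husep _ _ hne
        have h2 := htUg j
        have h3 := htUg j'
        rw [hjj] at h2
        have h4 : |s0 * (u (col j) - u (col j'))| ≤ s0 := by
          rw [abs_le]
          simp only [hUg] at h2 h3
          constructor <;> nlinarith
        rw [abs_mul, abs_of_pos hs0pos] at h4
        nlinarith
      by_contra hne
      rcases lt_or_gt_of_ne hne with hlt | hlt
      · have h1 := htup j
        have h2 := htl j'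
        have h3 : ((j : ℕ) : ℝ) + 1 ≤ ((j' : ℕ) : ℝ) := by exact_mod_cast hlt
        have h4 : s0 / K * ((j : ℝ) + 1) ≤ s0 / K * (j' : ℝ) := mul_le_mul_of_nonneg_left h3 (by positivity)
        simp only [hy] at h2
        rw [hjj, hcc] at h1
        linarith
      · have h1 := htup j'
        have h2 := htl j
        have h3 : ((j' : ℕ) : ℝ) + 1 ≤ ((j : ℕ) : ℝ) := by exact_mod_cast hlt
        have h4 : s0 / K * ((j' : ℝ) + 1) ≤ s0 / K * (j : ℝ) := mul_le_mul_of_nonneg_left h3 (by positivity)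
        simp only [hy] at h2
        rw [← hjj, ← hcc] at h1
        linarith
    have htF : ∀ j, (t j : ℝ) ≤ F := by
      intro j
      have h1 := (htUg j).2
      have h2 := abs_le.1 (hsu (col j))
      simp only [hUg] at h1
      linarith
    have htyy : ∀ j, yy X < t j := by
      intro j
      have h0 : 0 ≤ Real.log X := by
        have := abs_nonneg Y0
        linarith
      have h1 : (yy X : ℝ) ≤ Real.log X / 1000 := Nat.floor_le (by positivity)
      have h4 := hylow j
      have h5 := htl j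
      have h6 : (yy X : ℝ) < t j := by linarith
      exact_mod_cast h6
    obtain ⟨n, hn1, hn2, hn3, ⟨G, hG1, hG2⟩, hn4, hn5⟩ := hX1 X hXX1 t htinj
      (fun j => ⟨htp j, htyy j, (htF j).trans hFc⟩) col (fib_cmod K m hm0 hmK) bad hbad
    have hqn : q ∣ n := dvd_of_primes q n hqsf fun p hp hpq => hn5 p hp (Nat.le_of_dvd hq0 hpq)
    refine ⟨n, hn1, hn2, hn3, ⟨G, hG1, ?_⟩, ?_⟩
    · intro d hd
      obtain ⟨j, hj, hp⟩ := hG2 d hd
      refine ⟨t j, hp, ?_⟩
      rw [← hj]
      exact htsc j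
    · intro s hs hp
      obtain ⟨j, hj⟩ := hn4 s (hs.trans hFc) hp
      refine ⟨?_, col j, ?_⟩
      · rw [hj]
        have h1 : n ≡ 0 [MOD q] := (Nat.modEq_zero_iff_dvd).2 hqn
        have h2 := h1.add (hta j)
        rwa [zero_add] at h2
      · rw [hj]
        exact htsc j
  exact Filter.eventually_atTop.1 hev

end Pool.Agent.H362R2.RQ
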