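import Pool.Agent.H362R2.RQ.Shapes

set_option autoImplicit false

/-! RQ: a positive proportion of prescribed points of a window is approached by primes, and no other point. -/

open Finset Filter

namespace Pool.Agent.H362R2.RQ

open Pool.Agent.H256R2.SC (ff)
open Pool.Agent.H312R2.RG.C3 (ff_tendsto ff_lower ff_small ff_upper)

/-- the property of `n` -/
def PointProp {m : ℕ} (η δ : ℝ) (q a : ℕ) (H : ℝ) (b : Fin m → ℝ) (n : ℕ) : Prop :=
  (∀ p : ℕ, p.Prime → (n : ℝ) ≤ p → (p : ℝ) ≤ n + H → p ≡ a [MOD q] ∧ ∃ i, |((p : ℝ) - n) / H - b i| ≤ δ) ∧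
  ∃ J : Finset (Fin m), η * m ≤ J.card ∧
    ∀ i ∈ J, ∃ p : ℕ, p.Prime ∧ p ≡ a [MOD q] ∧ |((p : ℝ) - n) / H - b i| ≤ δ

theorem prop_one (h : StRQ) : ∃ η : ℝ, 0 < η ∧ ∀ m : ℕ, 1 ≤ m → ∃ c : ℝ, 0 < c ∧ ∀ δ : ℝ, 0 < δ → δ ≤ 1 →
    ∀ q a : ℕ, Squarefree q → a.Coprime q → ∀ᶠ X : ℝ in atTop, ∀ H : ℝ, Real.log X ≤ H → H ≤ c * ff X →
    ∀ b : Fin m → ℝ, (∀ i, 0 ≤ b i ∧ b i ≤ 1) →
    X ^ (7 / 8 : ℝ) ≤ ({n : ℕ | X < n ∧ (n : ℝ) ≤ 4 * X ∧ PointProp η δ q a H b n}.ncard : ℝ) := by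
  classical
  obtain ⟨η, hη, hmain⟩ := place_of h
  refine ⟨η, hη, ?_⟩
  intro m hm
  obtain ⟨c0, hc0, hmain2⟩ := hmain m hm
  refine ⟨c0 / 8, by positivity, ?_⟩
  intro δ hδ hδ1 q a hqsf haq
  have hmr : (1 : ℝ) ≤ m := by exact_mod_cast hm
  have hm0 : (0 : ℝ) < m := by linarith
  set N : ℕ := ⌈8 * (m : ℝ) / δ⌉₊ + 1 with hN
  have hN1 : 8 * (m : ℝ) / δ ≤ N := by
    have := Nat.le_ceil (8 * (m : ℝ) / δ)
    rw [hN]; push_cast; linarith
  have hN8 : 8 * (m : ℝ) ≤ δ * N := by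
    rw [div_le_iff₀ hδ] at hN1; linarith
  have hN0 : (0 : ℝ) < N := by
    rw [hN]; positivity
  have hN8' : 8 * (m : ℝ) ≤ N := by nlinarith
  set D : ℝ := 3 * N with hD
  have hD1 : 1 ≤ D := by
    rw [hD]; linarith
  have hev : ∀ᶠ X : ℝ in atTop, ∀ κ : Fin m → Fin (N + m + 1), Function.Injective κ → ∀ F : ℝ, Real.log X ≤ F →
    F ≤ c0 * ff X →
    ∀ bad : Finset ℕ, (bad.card : ℝ) ≤ X ^ (9 / 10 : ℝ) →
    ∃ n : ℕ, X < n ∧ (n : ℝ) ≤ 3 * X ∧ n ∉ bad ∧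
      (∃ G : Finset (Fin m), η * m ≤ G.card ∧ ∀ d ∈ G, ∃ s : ℕ, (n + s).Prime ∧
        |((s : ℝ) - F / 2) / (F / (8 * D * 1)) - D * (((κ d : ℕ) : ℝ) / N - 1 / 2)| ≤ 1) ∧
      ∀ s : ℕ, (s : ℝ) ≤ F → (n + s).Prime → n + s ≡ a [MOD q] ∧
        ∃ d, |((s : ℝ) - F / 2) / (F / (8 * D * 1)) - D * (((κ d : ℕ) : ℝ) / N - 1 / 2)| ≤ 1 := by
    refine Filter.eventually_all.2 fun κ => ?_
    by_cases hκ : Function.Injective κ
    · obtain ⟨X0, hX0⟩ := hmain2 (fun d => D * (((κ d : ℕ) : ℝ) / N - 1 / 2)) D 1 hD1 le_rfl (by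
        intro d
        rw [abs_mul, abs_of_pos (by linarith : 0 < D)]
        have h1 : |((κ d : ℕ) : ℝ) / N - 1 / 2| ≤ 1 := by
          have h2 : ((κ d : ℕ) : ℝ) ≤ N + m := by exact_mod_cast (by have := (κ d).2; omega : (κ d : ℕ) ≤ N + m)
          have h3 : (0 : ℝ) ≤ ((κ d : ℕ) : ℝ) / N := by positivity
          have h4 : ((κ d : ℕ) : ℝ) / N ≤ 3 / 2 := by
            rw [div_le_iff₀ hN0]; linarith
          rw [abs_le]; constructor <;> linarith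
        calc D * |((κ d : ℕ) : ℝ) / N - 1 / 2| ≤ D * 1 := mul_le_mul_of_nonneg_left h1 (by linarith)
          _ = D := mul_one D) (by
        intro d d' hne
        have h1 : (κ d : ℕ) ≠ κ d' := fun h => hne (hκ (Fin.ext h))
        have h2 : (1 : ℝ) ≤ |((κ d : ℕ) : ℝ) - ((κ d' : ℕ) : ℝ)| := by
          have h3 : (1 : ℤ) ≤ |((κ d : ℕ) : ℤ) - ((κ d' : ℕ) : ℤ)| :=
            Int.one_le_abs (sub_ne_zero.2 (by exact_mod_cast h1))
          exact_mod_cast h3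
        have e1 : D * (((κ d : ℕ) : ℝ) / N - 1 / 2) - D * (((κ d' : ℕ) : ℝ) / N - 1 / 2) =
            3 * (((κ d : ℕ) : ℝ) - ((κ d' : ℕ) : ℝ)) := by
          rw [hD]; field_simp; ring
        rw [e1, abs_mul, abs_of_pos (by norm_num : (0 : ℝ) < 3)]
        linarith) q a hqsf haq
      filter_upwards [eventually_ge_atTop X0] with X hX _ F hlF hFc bad hbad
      exact hX0 X hX F hlF hFc bad hbad
    · exact Eventually.of_forall fun X h => absurd h hκ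
  filter_upwards [hev, ev_bad c0 hc0, ff_small (c0 + 1) (by linarith), eventually_ge_atTop (1 : ℝ),
    Real.tendsto_log_atTop.eventually_ge_atTop (2 / δ), ff_tendsto.eventually_gt_atTop 0]
    with X hX hbadX hsmall hX1 hlX hffpos
  intro H hlH hHc b hb
  have hδ2 : 0 < 2 / δ := by positivity
  have hH2 : 2 / δ ≤ H := hlX.trans hlH
  have hH0 : 0 < H := lt_of_lt_of_le hδ2 hH2
  have hHδ : 1 ≤ δ / 2 * H := by
    have h1 : δ / 2 * (2 / δ) = 1 := by field_simp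
    have h2 : δ / 2 * (2 / δ) ≤ δ / 2 * H := mul_le_mul_of_nonneg_left hH2 (by linarith)
    linarith
  set F := 8 * H with hF
  have hFpos : 0 < F := by positivity
  have hFc : F ≤ c0 * ff X := by
    rw [hF]
    have : 8 * (c0 / 8 * ff X) = c0 * ff X := by ring
    linarith
  have hFX : F ≤ X := by
    have : (c0 + 1) * ff X = c0 * ff X + ff X := by ring
    linarith
  set Good : Set ℕ := {n : ℕ | X < n ∧ (n : ℝ) ≤ 4 * X ∧ PointProp η δ q a H b n} with hGood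
  have hfinG : Good.Finite := by
    apply (Set.finite_Iic ⌊4 * X⌋₊).subset
    intro n hn
    rw [Set.mem_Iic]
    exact Nat.le_floor hn.2.1
  by_contra hlt
  push Not at hlt
  set G0 : Finset ℕ := hfinG.toFinset with hG0
  have hG0card : (G0.card : ℝ) < X ^ (7 / 8 : ℝ) := by
    rw [hG0, ← Set.ncard_eq_toFinset_card Good hfinG]
    exact hlt
  set bad : Finset ℕ := G0.biUnion (fun g => Icc (g - ⌊F⌋₊) g) with hbaddef
  have hbadcard : (bad.card : ℝ) ≤ X ^ (9 / 10 : ℝ) := by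
    have h1 : bad.card ≤ G0.card * (⌊F⌋₊ + 1) := by
      refine Finset.card_biUnion_le.trans ?_
      have h2 : ∀ g ∈ G0, (Icc (g - ⌊F⌋₊) g).card ≤ ⌊F⌋₊ + 1 := by
        intro g _
        rw [Nat.card_Icc]
        omega
      exact (Finset.sum_le_card_nsmul _ _ _ h2).trans (le_of_eq (by rw [smul_eq_mul]))
    have h3 : ((⌊F⌋₊ + 1 : ℕ) : ℝ) ≤ c0 * ff X + 1 := by
      push_cast
      have := Nat.floor_le hFpos.le
      linarith
    calc (bad.card : ℝ) ≤ ((G0.card * (⌊F⌋₊ + 1) : ℕ) : ℝ) := by exact_mod_cast h1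
      _ = (G0.card : ℝ) * ((⌊F⌋₊ + 1 : ℕ) : ℝ) := by push_cast; ring
      _ ≤ X ^ (7 / 8 : ℝ) * (c0 * ff X + 1) := by
          apply mul_le_mul hG0card.le h3 (Nat.cast_nonneg _) (Real.rpow_nonneg (by linarith) _)
      _ ≤ _ := hbadX
  -- the positions
  have hkl : ∀ i : Fin m, m * ⌊b i * N / m⌋₊ + (i : ℕ) < N + m + 1 := by
    intro i
    have h1 : (m : ℝ) * ⌊b i * N / m⌋₊ ≤ N := by
      have h2 : (⌊b i * N / m⌋₊ : ℝ) ≤ b i * N / m := Nat.floor_le (by have := (hb i).1; positivity)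
      calc (m : ℝ) * ⌊b i * N / m⌋₊ ≤ m * (b i * N / m) := mul_le_mul_of_nonneg_left h2 hm0.le
        _ = b i * N := by field_simp
        _ ≤ 1 * N := mul_le_mul_of_nonneg_right (hb i).2 hN0.le
        _ = N := one_mul _
    have h2 : m * ⌊b i * N / m⌋₊ ≤ N := by exact_mod_cast h1
    have := i.2
    omega
  set κ : Fin m → Fin (N + m + 1) := fun i => ⟨m * ⌊b i * N / m⌋₊ + (i : ℕ), hkl i⟩ with hκ
  have hκinj : Function.Injective κ := by
    intro i j hij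
    simp only [hκ, Fin.mk.injEq] at hij
    have h1 := congrArg (fun x => x % m) hij
    simp only [Nat.mul_add_mod, Nat.mod_eq_of_lt i.2, Nat.mod_eq_of_lt j.2] at h1
    exact Fin.ext h1
  have hκb : ∀ i, |((κ i : ℕ) : ℝ) / N - b i| ≤ δ / 4 := by
    intro i
    have h1 : (⌊b i * N / m⌋₊ : ℝ) ≤ b i * N / m := Nat.floor_le (by have := (hb i).1; positivity)
    have h2 : b i * N / m < ⌊b i * N / m⌋₊ + 1 := Nat.lt_floor_add_one _
    have h3 : (m : ℝ) * ⌊b i * N / m⌋₊ ≤ b i * N := by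
      calc (m : ℝ) * ⌊b i * N / m⌋₊ ≤ m * (b i * N / m) := mul_le_mul_of_nonneg_left h1 hm0.le
        _ = b i * N := by field_simp
    have h4 : b i * N ≤ m * ⌊b i * N / m⌋₊ + m := by
      calc b i * N = m * (b i * N / m) := by field_simp
        _ ≤ m * (⌊b i * N / m⌋₊ + 1) := mul_le_mul_of_nonneg_left h2.le hm0.le
        _ = _ := by ring
    have h5 : ((i : ℕ) : ℝ) ≤ m := by exact_mod_cast i.2.le
    have h6 : (0 : ℝ) ≤ ((i : ℕ) : ℝ) := Nat.cast_nonneg _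
    have h7 : ((κ i : ℕ) : ℝ) = m * ⌊b i * N / m⌋₊ + ((i : ℕ) : ℝ) := by
      simp only [hκ]; push_cast; ring
    have h8 : |((κ i : ℕ) : ℝ) - b i * N| ≤ δ * N / 4 := by
      rw [h7, abs_le]
      constructor <;> linarith
    have e1 : ((κ i : ℕ) : ℝ) / N - b i = (((κ i : ℕ) : ℝ) - b i * N) / N := by field_simp
    rw [e1, abs_div, abs_of_pos hN0, div_le_iff₀ hN0]
    linarith
  obtain ⟨n, hn1, hn2, hnbad, ⟨G, hG1, hG2⟩, hex⟩ := hX κ hκinj F (by rw [hF]; linarith [hH0]) hFc bad hbadcard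
  have hkey : ∀ (s : ℕ) (i : Fin m), |((s : ℝ) - F / 2) / (F / (8 * D * 1)) - D * (((κ i : ℕ) : ℝ) / N - 1 / 2)| ≤ 1 →
      |(s : ℝ) - (7 * F / 16 + b i * H)| ≤ δ / 2 * H := by
    intro s i hs
    have hD0 : 0 < D := by linarith
    have hs0 : 0 < F / (8 * D * 1) := by positivity
    have e1 : ((s : ℝ) - F / 2) / (F / (8 * D * 1)) - D * (((κ i : ℕ) : ℝ) / N - 1 / 2) =
        ((s : ℝ) - (7 * F / 16 + ((κ i : ℕ) : ℝ) / N * H)) / (F / (8 * D * 1)) := by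
      rw [hF]
      field_simp
      ring
    rw [e1, abs_div, abs_of_pos hs0, div_le_one hs0] at hs
    have h1 : F / (8 * D * 1) ≤ δ / 24 * H := by
      rw [hF, hD, div_le_iff₀ (by positivity)]
      have h2 : 8 * H ≤ δ * N * H := mul_le_mul_of_nonneg_right (by linarith) hH0.le
      calc 8 * H ≤ δ * N * H := h2
        _ = δ / 24 * H * (8 * (3 * N) * 1) := by ring
    have h3 : |((κ i : ℕ) : ℝ) / N * H - b i * H| ≤ δ / 4 * H := by
      rw [← sub_mul, abs_mul, abs_of_pos hH0]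
      exact mul_le_mul_of_nonneg_right (hκb i) hH0.le
    have h4 := abs_le.1 hs
    have h5 := abs_le.1 h3
    have h6 : δ / 24 * H + δ / 4 * H ≤ δ / 2 * H := by
      have : 0 < δ * H := by positivity
      linarith
    rw [abs_le]
    constructor <;> linarith
  set z : ℝ := 7 * F / 16 with hz
  have hz0 : 0 ≤ z := by rw [hz]; positivity
  set w : ℕ := ⌊z⌋₊ with hw
  have hw1 : (w : ℝ) ≤ z := Nat.floor_le hz0
  have hw2 : z < w + 1 := Nat.lt_floor_add_one z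
  have hzF : z ≤ F := by rw [hz]; linarith
  have hkey2 : ∀ (s : ℕ) (i : Fin m),
      |((s : ℝ) - F / 2) / (F / (8 * D * 1)) - D * (((κ i : ℕ) : ℝ) / N - 1 / 2)| ≤ 1 →
      |(((n + s : ℕ) : ℝ) - ((n + w : ℕ) : ℝ)) / H - b i| ≤ δ := by
    intro s i hs
    have h1 := abs_le.1 (hkey s i hs)
    rw [scale_iff _ _ _ _ _ hH0]
    push_cast
    rw [abs_le]
    constructor <;> linarith
  have hmem : n + w ∈ Good := by
    refine ⟨?_, ?_, ?_, ?_⟩
    · push_cast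
      have : (0 : ℝ) ≤ w := Nat.cast_nonneg _
      linarith
    · push_cast
      linarith
    · intro p hp hp1 hp2
      obtain ⟨s, rfl⟩ : ∃ s, p = n + s := ⟨p - n, by
        have : n + w ≤ p := by exact_mod_cast hp1
        omega⟩
      push_cast at hp1 hp2
      have hsF : (s : ℝ) ≤ F := by
        have : z + H ≤ F := by rw [hz, hF]; linarith
        linarith
      obtain ⟨h1, i, h2⟩ := hex s hsF hp
      exact ⟨h1, i, hkey2 s i h2⟩
    · refine ⟨G, hG1, ?_⟩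
      intro i hi
      obtain ⟨s, hs, hsi⟩ := hG2 i hi
      have h1 := abs_le.1 (hkey s i hsi)
      have hsF : (s : ℝ) ≤ F := by
        have h2 : b i * H ≤ 1 * H := mul_le_mul_of_nonneg_right (hb i).2 hH0.le
        have h3 : δ / 2 * H ≤ 1 * H := mul_le_mul_of_nonneg_right (by linarith) hH0.le
        have : z + 2 * H ≤ F := by rw [hz, hF]; linarith
        linarith
      exact ⟨n + s, hs, (hex s hsF hs).1, hkey2 s i hsi⟩
  apply hnbad
  rw [hbaddef, Finset.mem_biUnion]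
  refine ⟨n + w, ?_, ?_⟩
  · rw [hG0, Set.Finite.mem_toFinset]
    exact hmem
  · rw [Finset.mem_Icc]
    have h1 : w ≤ ⌊F⌋₊ := Nat.floor_le_floor hzF
    omega

theorem PointProp_mono {m : ℕ} {η δ δ' : ℝ} {q a : ℕ} {H : ℝ} {b : Fin m → ℝ} {n : ℕ} (hd : δ' ≤ δ)
    (h : PointProp η δ' q a H b n) : PointProp η δ q a H b n := by
  obtain ⟨h1, J, hJ, h2⟩ := h
  refine ⟨fun p hp hp1 hp2 => ?_, J, hJ, fun i hi => ?_⟩
  · obtain ⟨h3, i, h4⟩ := h1 p hp hp1 hp2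
    exact ⟨h3, i, h4.trans hd⟩
  · obtain ⟨p, hp, hpa, h4⟩ := h2 i hi
    exact ⟨p, hp, hpa, h4.trans hd⟩

/-- a positive proportion of prescribed points of a window is approached by primes, and no other point -/
theorem prop_all (h : StRQ) : ∃ η : ℝ, 0 < η ∧ ∀ m : ℕ, 1 ≤ m → ∃ c : ℝ, 0 < c ∧ ∀ δ : ℝ, 0 < δ →
    ∀ q a : ℕ, Squarefree q → a.Coprime q → ∀ᶠ X : ℝ in atTop, ∀ H : ℝ, Real.log X ≤ H → H ≤ c * ff X →
    ∀ b : Fin m → ℝ, (∀ i, 0 ≤ b i ∧ b i ≤ 1) →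
    X ^ (7 / 8 : ℝ) ≤ ({n : ℕ | X < n ∧ (n : ℝ) ≤ 4 * X ∧ PointProp η δ q a H b n}.ncard : ℝ) := by
  obtain ⟨η, hη, h1⟩ := prop_one h
  refine ⟨η, hη, fun m hm => ?_⟩
  obtain ⟨c, hc, h2⟩ := h1 m hm
  refine ⟨c, hc, fun δ hδ q a hqsf haq => ?_⟩
  filter_upwards [h2 (min δ 1) (lt_min hδ one_pos) (min_le_right _ _) q a hqsf haq] with X hX
  intro H hlH hHc b hb
  refine (hX H hlH hHc b hb).trans ?_
  have hfin : {n : ℕ | X < n ∧ (n : ℝ) ≤ 4 * X ∧ PointProp η δ q a H b n}.Finite := by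
    apply (Set.finite_Iic ⌊4 * X⌋₊).subset
    intro n hn
    rw [Set.mem_Iic]
    exact Nat.le_floor hn.2.1
  have hsub : {n : ℕ | X < n ∧ (n : ℝ) ≤ 4 * X ∧ PointProp η (min δ 1) q a H b n} ⊆
      {n : ℕ | X < n ∧ (n : ℝ) ≤ 4 * X ∧ PointProp η δ q a H b n} :=
    fun n hn => ⟨hn.1, hn.2.1, PointProp_mono (min_le_left _ _) hn.2.2⟩
  exact_mod_cast Set.ncard_le_ncard hsub hfin

end Pool.Agent.H362R2.RQ
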