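import Mathlib

set_option autoImplicit false

/-! RQ: a tree of real positions with isolated nodes. -/

namespace Pool.Agent.H362R2.RQ

open Finset

/-- seen from `v` at the scale `Λ`, up to the radius `R`, the set `P` looks like the set of the `x i`, up to `δ` -/
def Looks {k : ℕ} (x : Fin k → ℝ) (R δ : ℝ) (P : Set ℝ) (v Λ : ℝ) : Prop :=
  (∀ p ∈ P, |p - v| ≤ R * Λ → ∃ i, |p - (v + Λ * x i)| ≤ δ * Λ) ∧
  (∀ i, ∃ p ∈ P, |p - (v + Λ * x i)| ≤ δ * Λ)

theorem exists_sep {k : ℕ} (x : Fin k → ℝ) (hx : Function.Injective x) :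
    ∃ μ : ℝ, 0 < μ ∧ ∀ i j, i ≠ j → μ ≤ |x i - x j| := by
  classical
  by_cases h : ((univ : Finset (Fin k × Fin k)).filter (fun p => p.1 ≠ p.2)).Nonempty
  · obtain ⟨p, hp, hmin⟩ := Finset.exists_min_image _ (fun p : Fin k × Fin k => |x p.1 - x p.2|) h
    rw [mem_filter] at hp
    refine ⟨|x p.1 - x p.2|, ?_, ?_⟩
    · rw [abs_pos, sub_ne_zero]
      exact fun h => hp.2 (hx h)
    · intro i j hij
      exact hmin (i, j) (by rw [mem_filter]; exact ⟨mem_univ _, hij⟩)
  · refine ⟨1, one_pos, fun i j hij => ?_⟩
    exfalso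
    apply h
    exact ⟨(i, j), by rw [mem_filter]; exact ⟨mem_univ _, hij⟩⟩

open Classical in
theorem treeR {k : ℕ} (x : Fin k → ℝ) (hx : Function.Injective x) (R δ : ℝ) (hR : 0 < R) (hδ : 0 < δ) :
    ∀ r : ℕ, ∃ (ι : Type) (_ : Fintype ι) (D : ℝ) (u : ι → ℝ), Fintype.card ι = k ^ r ∧ 1 ≤ D ∧
      (∀ g, |u g| ≤ D) ∧ (∀ g g', g ≠ g' → 2 < |u g - u g'|) ∧
      ∀ P : Set ℝ, (∀ p ∈ P, ∃ g, |p - u g| ≤ 1) →
        ∀ G : Finset ι, (∀ g ∈ G, ∃ p ∈ P, |p - u g| ≤ 1) → (k - 1) ^ r < G.card →
        ∃ v Λ : ℝ, 1 ≤ Λ ∧ Λ ≤ D ∧ |v| ≤ D ∧ Looks x R δ P v Λ := by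
  obtain ⟨μ, hμ, hsep⟩ := exists_sep x hx
  intro r
  induction r with
  | zero =>
    refine ⟨Unit, inferInstance, 1, fun _ => 0, by simp, le_rfl, by simp, ?_, ?_⟩
    · intro g g' h
      exact absurd (Subsingleton.elim g g') h
    · intro P _ G _ hcard
      exfalso
      have h1 : G.card ≤ 1 := by
        have := Finset.card_le_univ G
        simpa using this
      simp only [pow_zero] at hcard
      omega
  | succ r ih =>
    obtain ⟨ι, hι, D, u, hcard, hD1, huD, husep, hprop⟩ := ih
    set Λ : ℝ := (D + 1) / δ + (3 + 2 * D + R * D) / μ + 1 with hΛ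
    have hD0 : 0 < D := by linarith
    have hRD : 0 < R * D := by positivity
    have hq1 : 0 < (D + 1) / δ := by positivity
    have hq2 : 0 < (3 + 2 * D + R * D) / μ := by positivity
    have hΛ1 : 1 ≤ Λ := by linarith
    have hΛ0 : 0 < Λ := by linarith
    have hΛδ : D + 1 ≤ δ * Λ := by
      have h1 : δ * ((D + 1) / δ) = D + 1 := by field_simp
      have h2 : δ * ((D + 1) / δ) ≤ δ * Λ := mul_le_mul_of_nonneg_left (by linarith) hδ.le
      linarith
    have hΛμ : 3 + 2 * D + R * D ≤ μ * Λ := by
      have h1 : μ * ((3 + 2 * D + R * D) / μ) = 3 + 2 * D + R * D := by field_simp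
      have h2 : μ * ((3 + 2 * D + R * D) / μ) ≤ μ * Λ := mul_le_mul_of_nonneg_left (by linarith) hμ.le
      linarith
    have hfar : ∀ i j, i ≠ j → 3 + 2 * D + R * D ≤ |x i * Λ - x j * Λ| := by
      intro i j hij
      rw [← sub_mul, abs_mul, abs_of_pos hΛ0]
      exact hΛμ.trans (mul_le_mul_of_nonneg_right (hsep i j hij) hΛ0.le)
    set X0 : ℝ := ∑ i, |x i| with hX0
    have hxi : ∀ i, |x i| ≤ X0 := fun i =>
      Finset.single_le_sum (f := fun i => |x i|) (fun _ _ => abs_nonneg _) (mem_univ i)
    have hX00 : 0 ≤ X0 := Finset.sum_nonneg fun _ _ => abs_nonneg _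
    have hxΛ : ∀ i, |x i * Λ| ≤ X0 * Λ := by
      intro i
      rw [abs_mul, abs_of_pos hΛ0]
      exact mul_le_mul_of_nonneg_right (hxi i) hΛ0.le
    have hXΛ : 0 ≤ X0 * Λ := by positivity
    refine ⟨Fin k × ι, inferInstance, (X0 + 1) * Λ + D, fun y => x y.1 * Λ + u y.2, ?_, ?_, ?_, ?_, ?_⟩
    · rw [Fintype.card_prod, Fintype.card_fin, hcard, pow_succ, mul_comm]
    · linarith
    · rintro ⟨i, g⟩
      simp only
      have h1 := abs_add_le (x i * Λ) (u g)
      have h2 := hxΛ i
      have h3 := huD g
      linarith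
    · rintro ⟨i, g⟩ ⟨i', g'⟩ hne
      simp only
      by_cases hi : i = i'
      · subst hi
        have hg : g ≠ g' := fun h => hne (by rw [h])
        have := husep g g' hg
        have e1 : x i * Λ + u g - (x i * Λ + u g') = u g - u g' := by ring
        rw [e1]; exact this
      · have h1 := hfar i i' hi
        have h2 := abs_le.1 (huD g)
        have h3 := abs_le.1 (huD g')
        have h4 : |x i * Λ - x i' * Λ| ≤ |x i * Λ + u g - (x i' * Λ + u g')| + |u g' - u g| := by
          have := abs_add_le (x i * Λ + u g - (x i' * Λ + u g')) (u g' - u g)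
          have e1 : x i * Λ + u g - (x i' * Λ + u g') + (u g' - u g) = x i * Λ - x i' * Λ := by ring
          rw [e1] at this
          exact this
        have h5 : |u g' - u g| ≤ 2 * D := by
          rw [abs_le]; constructor <;> linarith
        linarith
    · intro P hP G hG hGcard
      set Gi : Fin k → Finset ι := fun i => univ.filter (fun g => (i, g) ∈ G) with hGi
      have hsum : G.card = ∑ i, (Gi i).card := by
        have h1 : G.card = (univ.filter (fun y : Fin k × ι => y ∈ G)).card := by
          congr 1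
          ext y
          simp
        rw [h1, Finset.card_filter, Fintype.sum_prod_type]
        apply Finset.sum_congr rfl
        intro i _
        rw [hGi, Finset.card_filter]
      by_cases hA : ∃ i, (k - 1) ^ r < (Gi i).card
      · obtain ⟨i, hi⟩ := hA
        set Pi : Set ℝ := {p | p + x i * Λ ∈ P ∧ |p| ≤ D + 1} with hPi
        obtain ⟨v, Λ', hΛ'1, hΛ'D, hvD, hL1, hL2⟩ := hprop Pi (by
          rintro p ⟨hp1, hp2⟩
          obtain ⟨⟨j, g⟩, hjg⟩ := hP _ hp1
          simp only at hjg
          by_cases hji : j = i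
          · subst hji
            refine ⟨g, ?_⟩
            have e1 : p + x j * Λ - (x j * Λ + u g) = p - u g := by ring
            rw [e1] at hjg
            exact hjg
          · exfalso
            have h1 := hfar j i hji
            have h2 := abs_le.1 hjg
            have h3 := abs_le.1 hp2
            have h4 := abs_le.1 (huD g)
            have h5 : |x j * Λ - x i * Λ| ≤ 2 * D + 2 := by
              rw [abs_le]; constructor <;> linarith
            linarith) (Gi i) (by
          intro g hg
          rw [hGi, mem_filter] at hg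
          obtain ⟨p, hp1, hp2⟩ := hG _ hg.2
          simp only at hp2
          have e1 : p - (x i * Λ + u g) = p - x i * Λ - u g := by ring
          rw [e1] at hp2
          refine ⟨p - x i * Λ, ⟨?_, ?_⟩, hp2⟩
          · rw [sub_add_cancel]; exact hp1
          · have h2 := abs_le.1 hp2
            have h4 := abs_le.1 (huD g)
            rw [abs_le]; constructor <;> linarith) hi
        refine ⟨v + x i * Λ, Λ', hΛ'1, by linarith, ?_, ?_, ?_⟩
        · have h1 := abs_add_le v (x i * Λ)
          have h2 := hxΛ i
          linarith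
        · intro p hp hpv
          obtain ⟨⟨j, g⟩, hjg⟩ := hP _ hp
          simp only at hjg
          have h2 := abs_le.1 hjg
          have h3 := abs_le.1 hpv
          have h4 := abs_le.1 (huD g)
          have h6 := abs_le.1 hvD
          have hRΛ : R * Λ' ≤ R * D := mul_le_mul_of_nonneg_left hΛ'D hR.le
          have hji : j = i := by
            by_contra hji
            have h1 := hfar j i hji
            have h5 : |x j * Λ - x i * Λ| ≤ 1 + 2 * D + R * D := by
              rw [abs_le]; constructor <;> linarith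
            linarith
          subst hji
          obtain ⟨i', hi'⟩ := hL1 (p - x j * Λ) ⟨by rw [sub_add_cancel]; exact hp, by
            rw [abs_le]; constructor <;> linarith⟩ (by
            have e1 : p - x j * Λ - v = p - (v + x j * Λ) := by ring
            rw [e1]; exact hpv)
          refine ⟨i', ?_⟩
          have e1 : p - (v + x j * Λ + Λ' * x i') = p - x j * Λ - (v + Λ' * x i') := by ring
          rw [e1]; exact hi'
        · intro i'
          obtain ⟨p, hp, hpi⟩ := hL2 i'
          refine ⟨p + x i * Λ, hp.1, ?_⟩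
          have e1 : p + x i * Λ - (v + x i * Λ + Λ' * x i') = p - (v + Λ' * x i') := by ring
          rw [e1]; exact hpi
      · push Not at hA
        have hall : ∀ i, 0 < (Gi i).card := by
          by_contra hcon
          push Not at hcon
          obtain ⟨i0, hi0⟩ := hcon
          have h1 : ∑ i, (Gi i).card ≤ (k - 1) ^ (r + 1) := by
            rw [← Finset.add_sum_erase _ _ (mem_univ i0)]
            have h2 : ∑ i ∈ univ.erase i0, (Gi i).card ≤
                (univ.erase i0 : Finset (Fin k)).card * (k - 1) ^ r := by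
              rw [← smul_eq_mul]
              exact Finset.sum_le_card_nsmul _ _ _ (fun i _ => hA i)
            rw [Finset.card_erase_of_mem (mem_univ i0), card_univ, Fintype.card_fin] at h2
            rw [pow_succ, mul_comm]
            omega
          omega
        refine ⟨0, Λ, hΛ1, by linarith, by rw [abs_zero]; linarith, ?_, ?_⟩
        · intro p hp _
          obtain ⟨⟨j, g⟩, hjg⟩ := hP _ hp
          simp only at hjg
          refine ⟨j, ?_⟩
          have h2 := abs_le.1 hjg
          have h4 := abs_le.1 (huD g)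
          have e1 : Λ * x j = x j * Λ := mul_comm _ _
          rw [abs_le]; constructor <;> linarith
        · intro i
          obtain ⟨g, hg⟩ := Finset.card_pos.1 (hall i)
          rw [hGi, mem_filter] at hg
          obtain ⟨p, hp1, hp2⟩ := hG _ hg.2
          simp only at hp2
          refine ⟨p, hp1, ?_⟩
          have h2 := abs_le.1 hp2
          have h4 := abs_le.1 (huD g)
          have e1 : Λ * x i = x i * Λ := mul_comm _ _
          rw [abs_le]; constructor <;> linarith

end Pool.Agent.H362R2.RQ
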