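import Pool.Agent.H362R2.RQ.Place
import Pool.Agent.H362R2.RQ.TreeR

set_option autoImplicit false

/-! RQ: at the record scale the primes can look like any given set. -/

open Finset Filter

namespace Pool.Agent.H362R2.RQ

open Pool.Agent.H378R2 (yy)
open Pool.Agent.H256R2.SC (ff)
open Pool.Agent.H312R2.RG.C3 (exists_prime_Ioc ff_tendsto ff_lower ff_small ff_upper)

theorem exists_pow_eta (k : ℕ) (hk : 1 ≤ k) (η : ℝ) (hη : 0 < η) :
    ∃ r : ℕ, ((k - 1 : ℕ) : ℝ) ^ r < η * (k : ℝ) ^ r := by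
  have hk' : (0 : ℝ) < k := by exact_mod_cast hk
  have h3 : ((k - 1 : ℕ) : ℝ) = (k : ℝ) - 1 := by
    rw [Nat.cast_sub hk]; simp
  have h1 : ((k : ℝ) - 1) / k < 1 := by
    rw [div_lt_one hk']; linarith
  have h0 : 0 ≤ ((k : ℝ) - 1) / k := by
    have : (1 : ℝ) ≤ k := by exact_mod_cast hk
    apply div_nonneg <;> linarith
  obtain ⟨r, hr⟩ := exists_pow_lt_of_lt_one hη h1
  refine ⟨r, ?_⟩
  rw [div_pow, div_lt_iff₀ (by positivity)] at hr
  rw [h3]
  exact hr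

/-- growth: `X^(7/8) (F + 2) ≤ X^(9/10)` -/
theorem ev_bad (c : ℝ) (hc : 0 < c) : ∀ᶠ X : ℝ in atTop,
    X ^ (7 / 8 : ℝ) * (c * ff X + 1) ≤ X ^ (9 / 10 : ℝ) := by
  have h1 : ∀ᶠ X : ℝ in atTop, Real.log X ^ 5 ≤ X ^ (1 / 40 : ℝ) := by
    have h := (isLittleO_log_rpow_rpow_atTop (5 : ℝ) (show (0 : ℝ) < 1 / 40 by norm_num)).def
      (show (0 : ℝ) < 1 by norm_num)
    filter_upwards [h, eventually_ge_atTop (1 : ℝ)] with X h2 h3
    rw [one_mul, Real.norm_of_nonneg (Real.rpow_nonneg (Real.log_nonneg h3) _),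
      Real.norm_of_nonneg (Real.rpow_nonneg (by linarith) _)] at h2
    have h4 : Real.log X ^ (5 : ℝ) = Real.log X ^ (5 : ℕ) := by
      rw [← Real.rpow_natCast]; norm_num
    rwa [h4] at h2
  filter_upwards [h1, ff_upper, Real.tendsto_log_atTop.eventually_ge_atTop (c + 1), eventually_ge_atTop (1 : ℝ)]
    with X h2 h3 h4 h5
  have hl : 1 ≤ Real.log X := by linarith
  have h6 : c * ff X + 1 ≤ Real.log X ^ 5 := by
    have h7 : c * ff X ≤ c * Real.log X ^ 4 := mul_le_mul_of_nonneg_left h3 hc.le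
    have h8 : (1 : ℝ) ≤ Real.log X ^ 4 := one_le_pow₀ hl
    calc c * ff X + 1 ≤ c * Real.log X ^ 4 + 1 * Real.log X ^ 4 := by linarith
      _ = (c + 1) * Real.log X ^ 4 := by ring
      _ ≤ Real.log X * Real.log X ^ 4 := mul_le_mul_of_nonneg_right h4 (by positivity)
      _ = _ := by ring
  calc X ^ (7 / 8 : ℝ) * (c * ff X + 1) ≤ X ^ (7 / 8 : ℝ) * X ^ (1 / 40 : ℝ) :=
        mul_le_mul_of_nonneg_left (h6.trans h2) (Real.rpow_nonneg (by linarith) _)
    _ = X ^ (9 / 10 : ℝ) := by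
        rw [← Real.rpow_add (by linarith)]
        norm_num

/-- the property of `n` in the theorem on finite sets -/
def FinProp {k : ℕ} (x : Fin k → ℝ) (R δ : ℝ) (q a : ℕ) (c F : ℝ) (n : ℕ) : Prop :=
  ∃ L : ℝ, c * F ≤ L ∧ L ≤ F ∧
    (∀ p : ℕ, p.Prime → |(p : ℝ) - n| ≤ R * L → p ≡ a [MOD q] ∧ ∃ i, |(p : ℝ) - (n + L * x i)| ≤ δ * L) ∧
    (∀ i, ∃ p : ℕ, p.Prime ∧ p ≡ a [MOD q] ∧ |(p : ℝ) - (n + L * x i)| ≤ δ * L)

/-- finite shapes at the scales up to the record -/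
theorem shapes_fin (h : StRQ) (k : ℕ) (hk : 1 ≤ k) (x : Fin k → ℝ) (hx : Function.Injective x)
    (R δ : ℝ) (hR : 0 < R) (hδ : 0 < δ) : ∃ c : ℝ, 0 < c ∧ ∀ q a : ℕ, Squarefree q → a.Coprime q →
    ∀ᶠ X : ℝ in atTop, ∀ F : ℝ, Real.log X ≤ F → F ≤ c * ff X →
    X ^ (7 / 8 : ℝ) ≤ ({n : ℕ | X < n ∧ (n : ℝ) ≤ 4 * X ∧ FinProp x R δ q a c F n}.ncard : ℝ) := by
  classical
  obtain ⟨η, hη, hmain⟩ := place_of h
  obtain ⟨r, hr⟩ := exists_pow_eta k hk η hη
  obtain ⟨ι, hι, D, u, hcard, hD1, huD, husep, htree⟩ := treeR x hx (R + 1) (δ / 2) (by linarith) (by linarith) r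
  have hm1 : 1 ≤ k ^ r := Nat.one_le_pow _ _ hk
  set e : ι ≃ Fin (k ^ r) := Fintype.equivFinOfCardEq hcard with he
  obtain ⟨c0, hc0, hmain2⟩ := hmain (k ^ r) hm1
  have hmain3 := hmain2 (fun d => u (e.symm d)) D (R + 2) hD1 (by linarith)
    (fun d => huD _) (fun d d' hne => husep _ _ (fun hh => hne (e.symm.injective hh)))
  have hD0 : 0 < D := by linarith
  have hρ0 : 0 < R + 2 := by linarith
  obtain ⟨c, hcdef⟩ : ∃ c : ℝ, c = min c0 (1 / (8 * D * (R + 2))) := ⟨_, rfl⟩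
  have hc : 0 < c := by rw [hcdef]; exact lt_min hc0 (by positivity)
  have hcc0 : c ≤ c0 := by rw [hcdef]; exact min_le_left _ _
  have hcc1 : c ≤ 1 / (8 * D * (R + 2)) := by rw [hcdef]; exact min_le_right _ _
  refine ⟨c, hc, ?_⟩
  intro q a hqsf haq
  obtain ⟨X1, hX1⟩ := hmain3 q a hqsf haq
  filter_upwards [eventually_ge_atTop X1, ev_bad c hc, ff_small (c + 1) (by linarith),
    Real.tendsto_log_atTop.eventually_ge_atTop (8 * D * (R + 2) * (1 + 2 / δ)), eventually_ge_atTop (1 : ℝ),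
    ff_tendsto.eventually_gt_atTop 0]
    with X hXX1 hbadX hsmall hbig hX1' hffpos
  intro F hlF hFc
  have hbigF : 8 * D * (R + 2) * (1 + 2 / δ) ≤ F := hbig.trans hlF
  have hFpos : 0 < F := lt_of_lt_of_le (by positivity) hbigF
  have hFX : F ≤ X := by
    have : (c + 1) * ff X = c * ff X + ff X := by ring
    linarith
  set s0 := F / (8 * D * (R + 2)) with hs0
  have hs0pos : 0 < s0 := by rw [hs0]; positivity
  have hs0big : 1 + 2 / δ ≤ s0 := by
    rw [hs0, le_div_iff₀ (by positivity)]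
    linarith
  have hs0D : s0 * D * (R + 2) = F / 8 := by rw [hs0]; field_simp
  have hceq : c * F ≤ s0 := by
    rw [hs0]
    calc c * F ≤ 1 / (8 * D * (R + 2)) * F := mul_le_mul_of_nonneg_right hcc1 hFpos.le
      _ = _ := by ring
  set Good : Set ℕ := {n : ℕ | X < n ∧ (n : ℝ) ≤ 4 * X ∧ FinProp x R δ q a c F n} with hGood
  have hfinG : Good.Finite := by
    apply (Set.finite_Iic ⌊4 * X⌋₊).subset
    intro n hn
    rw [Set.mem_Iic]
    exact Nat.le_floor hn.2.1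
  by_contra hlt
  push Not at hlt
  set G0 : Finset ℕ := hfinG.toFinset with hG0
  have hG0card : (G0.card : ℝ) < X ^ (7 / 8 : ℝ) := by
    rw [hG0, ← Set.ncard_eq_toFinset_card Good hfinG]
    exact hlt
  set bad : Finset ℕ := G0.biUnion (fun g => Icc (g - ⌊F⌋₊) g) with hbaddef
  have hbadcard : (bad.card : ℝ) ≤ X ^ (9 / 10 : ℝ) := by
    have h1 : bad.card ≤ G0.card * (⌊F⌋₊ + 1) := by
      refine Finset.card_biUnion_le.trans ?_
      have h2 : ∀ g ∈ G0, (Icc (g - ⌊F⌋₊) g).card ≤ ⌊F⌋₊ + 1 := by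
        intro g _
        rw [Nat.card_Icc]
        omega
      exact (Finset.sum_le_card_nsmul _ _ _ h2).trans (le_of_eq (by rw [smul_eq_mul]))
    have h3 : ((⌊F⌋₊ + 1 : ℕ) : ℝ) ≤ c * ff X + 1 := by
      push_cast
      have := Nat.floor_le hFpos.le
      linarith
    calc (bad.card : ℝ) ≤ ((G0.card * (⌊F⌋₊ + 1) : ℕ) : ℝ) := by exact_mod_cast h1
      _ = (G0.card : ℝ) * ((⌊F⌋₊ + 1 : ℕ) : ℝ) := by push_cast; ring
      _ ≤ X ^ (7 / 8 : ℝ) * (c * ff X + 1) := by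
          apply mul_le_mul hG0card.le h3 (Nat.cast_nonneg _) (Real.rpow_nonneg (by linarith) _)
      _ ≤ _ := hbadX
  obtain ⟨n, hn1, hn2, hnbad, ⟨G, hG1, hG2⟩, hex⟩ := hX1 X hXX1 F hlF
    (hFc.trans (mul_le_mul_of_nonneg_right hcc0 hffpos.le)) bad hbadcard
  -- the scaled primes
  set P : Set ℝ := {p : ℝ | ∃ s : ℕ, (n + s).Prime ∧ (s : ℝ) ≤ F ∧ p = ((s : ℝ) - F / 2) / s0} with hP
  have hleF : ∀ (s : ℕ) (g : ι), |((s : ℝ) - F / 2) / s0 - u g| ≤ 1 → (s : ℝ) ≤ F := by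
    intro s g hs
    have h1 := (abs_le.1 hs).2
    have h2 := (abs_le.1 (huD g)).2
    have h3 : ((s : ℝ) - F / 2) / s0 ≤ 1 + D := by linarith
    rw [div_le_iff₀ hs0pos] at h3
    have h4 : (1 + D) * s0 ≤ F / 4 := by
      have h5 : s0 * D * 1 ≤ s0 * D * (R + 2) := mul_le_mul_of_nonneg_left (by linarith) (by positivity)
      have h6 : s0 * 1 ≤ s0 * D := mul_le_mul_of_nonneg_left hD1 hs0pos.le
      linarith
    linarith
  obtain ⟨v, Λ, hΛ1, hΛD, hvD, hL1, hL2⟩ := htree P (by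
    rintro p ⟨s, hs1, hs2, rfl⟩
    obtain ⟨_, d, hd⟩ := hex s hs2 hs1
    exact ⟨e.symm d, hd⟩) (G.map e.symm.toEmbedding) (by
    intro g hg
    rw [Finset.mem_map] at hg
    obtain ⟨d, hd, rfl⟩ := hg
    obtain ⟨s, hs, hsd⟩ := hG2 d hd
    exact ⟨((s : ℝ) - F / 2) / s0, ⟨s, hs, hleF s _ hsd, rfl⟩, hsd⟩) (by
    rw [Finset.card_map]
    have h1 : (((k - 1) ^ r : ℕ) : ℝ) < (G.card : ℝ) := by
      push_cast
      refine lt_of_lt_of_le hr ?_
      calc η * (k : ℝ) ^ r = η * ((k ^ r : ℕ) : ℝ) := by push_cast; ring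
        _ ≤ _ := hG1
    exact_mod_cast h1)
  set L := s0 * Λ with hL
  have hLs0 : s0 ≤ L := by
    rw [hL]
    exact le_mul_of_one_le_right hs0pos.le hΛ1
  have hLpos : 0 < L := by linarith
  have hL1' : 1 ≤ L := by
    have : 0 < 2 / δ := by positivity
    linarith
  have hLδ : 1 ≤ δ / 2 * L := by
    have h1 : δ / 2 * (2 / δ) = 1 := by field_simp
    have h2 : δ / 2 * (2 / δ) ≤ δ / 2 * L := by
      apply mul_le_mul_of_nonneg_left _ (by linarith)
      linarith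
    linarith
  have hs0v : |s0 * v| ≤ s0 * D := by
    rw [abs_mul, abs_of_pos hs0pos]
    exact mul_le_mul_of_nonneg_left hvD hs0pos.le
  have hLD : L ≤ s0 * D := mul_le_mul_of_nonneg_left hΛD hs0pos.le
  have hs0v' := abs_le.1 hs0v
  have hkey : s0 * D + (R + 1) * L ≤ F / 8 := by
    have h1 : (R + 1) * L ≤ (R + 1) * (s0 * D) := mul_le_mul_of_nonneg_left hLD (by linarith)
    have h2 : s0 * D * (R + 2) = s0 * D + (R + 1) * (s0 * D) := by ring
    linarith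
  have hRLnn : 0 ≤ (R + 1) * L := by positivity
  have hs0Dpos : 0 < s0 * D := by positivity
  set z : ℝ := F / 2 + s0 * v with hz
  have hznn : 0 ≤ z := by
    rw [hz]; linarith
  set w : ℕ := ⌊z⌋₊ with hw
  have hw1 : (w : ℝ) ≤ z := Nat.floor_le hznn
  have hw2 : z < w + 1 := Nat.lt_floor_add_one z
  have hzF : z ≤ F := by rw [hz]; linarith
  have hmem : n + w ∈ Good := by
    refine ⟨?_, ?_, L, ?_, ?_, ?_, ?_⟩
    · push_cast
      have : (0 : ℝ) ≤ w := Nat.cast_nonneg _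
      linarith
    · push_cast
      linarith
    · exact hceq.trans hLs0
    · linarith
    · intro p hp hpn
      push_cast at hpn
      have hpn' := abs_le.1 hpn
      have hRL : R * L + 1 ≤ (R + 1) * L := by linarith
      have hpge : (n : ℝ) ≤ p := by
        have : z ≥ F / 4 := by rw [hz]; linarith
        linarith
      obtain ⟨s, rfl⟩ : ∃ s, p = n + s := ⟨p - n, by
        have : n ≤ p := by exact_mod_cast hpge
        omega⟩
      push_cast at hpn'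
      have hsF : (s : ℝ) ≤ F := by
        rw [hz] at hw1
        linarith
      refine ⟨(hex s hsF hp).1, ?_⟩
      obtain ⟨i, hi⟩ := hL1 (((s : ℝ) - F / 2) / s0) ⟨s, hp, hsF, rfl⟩ (by
        have e1 : ((s : ℝ) - F / 2) / s0 - v = ((s : ℝ) - z) / s0 := by
          rw [hz]; field_simp; ring
        rw [e1, abs_div, abs_of_pos hs0pos, div_le_iff₀ hs0pos]
        have e2 : (R + 1) * Λ * s0 = (R + 1) * L := by rw [hL]; ring
        rw [e2, abs_le]
        constructor <;> linarith)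
      refine ⟨i, ?_⟩
      have e1 : ((s : ℝ) - F / 2) / s0 - (v + Λ * x i) = ((s : ℝ) - z - L * x i) / s0 := by
        rw [hz, hL]; field_simp; ring
      rw [e1, abs_div, abs_of_pos hs0pos, div_le_iff₀ hs0pos] at hi
      have e2 : δ / 2 * Λ * s0 = δ / 2 * L := by rw [hL]; ring
      rw [e2] at hi
      have hi' := abs_le.1 hi
      push_cast
      rw [abs_le]
      constructor <;> linarith
    · intro i
      obtain ⟨p, ⟨s, hs1, hs2, rfl⟩, hp⟩ := hL2 i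
      refine ⟨n + s, hs1, (hex s hs2 hs1).1, ?_⟩
      have e1 : ((s : ℝ) - F / 2) / s0 - (v + Λ * x i) = ((s : ℝ) - z - L * x i) / s0 := by
        rw [hz, hL]; field_simp; ring
      rw [e1, abs_div, abs_of_pos hs0pos, div_le_iff₀ hs0pos] at hp
      have e2 : δ / 2 * Λ * s0 = δ / 2 * L := by rw [hL]; ring
      rw [e2] at hp
      have hp' := abs_le.1 hp
      push_cast
      rw [abs_le]
      constructor <;> linarith
  apply hnbad
  rw [hbaddef, Finset.mem_biUnion]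
  refine ⟨n + w, ?_, ?_⟩
  · rw [hG0, Set.Finite.mem_toFinset]
    exact hmem
  · rw [Finset.mem_Icc]
    have h1 : w ≤ ⌊F⌋₊ := Nat.floor_le_floor hzF
    omega

/-- the property of `n` in the theorem on arbitrary sets -/
def SetProp (S : Set ℝ) (R δ : ℝ) (q a : ℕ) (c F : ℝ) (n : ℕ) : Prop :=
  ∃ L : ℝ, c * F ≤ L ∧ L ≤ F ∧
    (∀ p : ℕ, p.Prime → |(p : ℝ) - n| ≤ R * L → p ≡ a [MOD q] ∧ ∃ y ∈ S, |((p : ℝ) - n) / L - y| ≤ δ) ∧
    (∀ y ∈ S, |y| ≤ R → ∃ p : ℕ, p.Prime ∧ p ≡ a [MOD q] ∧ |((p : ℝ) - n) / L - y| ≤ δ)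

theorem scale_iff (p n L y δ : ℝ) (hL : 0 < L) : |(p - n) / L - y| ≤ δ ↔ |p - (n + L * y)| ≤ δ * L := by
  have e1 : (p - n) / L - y = (p - (n + L * y)) / L := by field_simp; ring
  rw [e1, abs_div, abs_of_pos hL, div_le_iff₀ hL]

/-- all shapes at the scales up to the record -/
theorem shapes_set (h : StRQ) (S : Set ℝ) (R δ : ℝ) (hR : 0 < R) (hδ : 0 < δ) :
    ∃ c : ℝ, 0 < c ∧ ∀ q a : ℕ, Squarefree q → a.Coprime q →
    ∀ᶠ X : ℝ in atTop, ∀ F : ℝ, Real.log X ≤ F → F ≤ c * ff X →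
    X ^ (7 / 8 : ℝ) ≤ ({n : ℕ | X < n ∧ (n : ℝ) ≤ 4 * X ∧ SetProp S R δ q a c F n}.ncard : ℝ) := by
  classical
  have hmono : ∀ (q a : ℕ) (c F X : ℝ) (P : ℕ → Prop), (∀ n, P n → SetProp S R δ q a c F n) →
      ({n : ℕ | X < n ∧ (n : ℝ) ≤ 4 * X ∧ P n}.ncard : ℝ) ≤
      ({n : ℕ | X < n ∧ (n : ℝ) ≤ 4 * X ∧ SetProp S R δ q a c F n}.ncard : ℝ) := by
    intro q a c F X P hP
    have hfin : {n : ℕ | X < n ∧ (n : ℝ) ≤ 4 * X ∧ SetProp S R δ q a c F n}.Finite := by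
      apply (Set.finite_Iic ⌊4 * X⌋₊).subset
      intro n hn
      rw [Set.mem_Iic]
      exact Nat.le_floor hn.2.1
    have hsub : {n : ℕ | X < n ∧ (n : ℝ) ≤ 4 * X ∧ P n} ⊆
        {n : ℕ | X < n ∧ (n : ℝ) ≤ 4 * X ∧ SetProp S R δ q a c F n} := fun n hn => ⟨hn.1, hn.2.1, hP n hn.2.2⟩
    exact_mod_cast Set.ncard_le_ncard hsub hfin
  by_cases hne : (S ∩ Set.Icc (-R) R).Nonempty
  · obtain ⟨N, hNsub, hNfin, hNcov⟩ := Metric.finite_approx_of_totallyBounded
      ((totallyBounded_Icc (-R) R).subset (Set.inter_subset_right (s := S))) (δ / 2) (by linarith)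
    set Nf : Finset ℝ := hNfin.toFinset with hNf
    have hNne : Nf.Nonempty := by
      obtain ⟨y, hy⟩ := hne
      have h1 := hNcov hy
      rw [Set.mem_iUnion₂] at h1
      obtain ⟨z, hz, _⟩ := h1
      exact ⟨z, by rw [hNf, Set.Finite.mem_toFinset]; exact hz⟩
    set x : Fin Nf.card → ℝ := fun i => (Nf.equivFin.symm i : ℝ) with hx
    have hxinj : Function.Injective x := by
      intro i j hij
      exact Nf.equivFin.symm.injective (Subtype.ext hij)
    have hxS : ∀ i, x i ∈ S := by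
      intro i
      have h1 : (Nf.equivFin.symm i : ℝ) ∈ Nf := (Nf.equivFin.symm i).2
      have h2 : ∀ y ∈ Nf, y ∈ S := fun y hy => (hNsub (hNfin.mem_toFinset.1 hy)).1
      exact h2 _ h1
    obtain ⟨c, hc, hev⟩ := shapes_fin h Nf.card hNne.card_pos x hxinj R (δ / 2) hR (by linarith)
    refine ⟨c, hc, ?_⟩
    intro q a hqsf haq
    filter_upwards [hev q a hqsf haq, Real.tendsto_log_atTop.eventually_gt_atTop 0] with X hX hlog
    intro F hlF hFc
    refine (hX F hlF hFc).trans (hmono q a c F X _ ?_)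
    rintro n ⟨L, hL, hLF, h1, h2⟩
    have hF0 : 0 < F := hlog.trans_le hlF
    have hL0 : 0 < L := (mul_pos hc hF0).trans_le hL
    refine ⟨L, hL, hLF, ?_, ?_⟩
    · intro p hp hpn
      obtain ⟨hpa, i, hi⟩ := h1 p hp hpn
      refine ⟨hpa, x i, hxS i, ?_⟩
      rw [scale_iff _ _ _ _ _ hL0]
      refine hi.trans ?_
      apply mul_le_mul_of_nonneg_right _ hL0.le
      linarith
    · intro y hy hyR
      have h3 := hNcov ⟨hy, abs_le.1 hyR⟩
      rw [Set.mem_iUnion₂] at h3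
      obtain ⟨z, hz, hyz⟩ := h3
      rw [Metric.mem_ball, Real.dist_eq] at hyz
      have hzN : z ∈ Nf := by rw [hNf, Set.Finite.mem_toFinset]; exact hz
      obtain ⟨p, hp, hpa, hpz⟩ := h2 (Nf.equivFin ⟨z, hzN⟩)
      have e1 : x (Nf.equivFin ⟨z, hzN⟩) = z := by
        simp only [hx, Equiv.symm_apply_apply]
      rw [e1] at hpz
      refine ⟨p, hp, hpa, ?_⟩
      rw [← scale_iff _ _ _ _ _ hL0] at hpz
      have h4 := abs_le.1 hpz
      have h5 := abs_le.1 hyz.le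
      rw [abs_le]
      constructor <;> linarith
  · rw [Set.not_nonempty_iff_eq_empty] at hne
    obtain ⟨c, hc, hev⟩ := shapes_fin h 1 le_rfl (fun _ => R + 1) (fun _ _ _ => Subsingleton.elim _ _) R (1 / 2) hR
      (by norm_num)
    refine ⟨c, hc, ?_⟩
    intro q a hqsf haq
    filter_upwards [hev q a hqsf haq, Real.tendsto_log_atTop.eventually_gt_atTop 0] with X hX hlog
    intro F hlF hFc
    refine (hX F hlF hFc).trans (hmono q a c F X _ ?_)
    rintro n ⟨L, hL, hLF, h1, _⟩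
    have hF0 : 0 < F := hlog.trans_le hlF
    have hL0 : 0 < L := (mul_pos hc hF0).trans_le hL
    refine ⟨L, hL, hLF, ?_, ?_⟩
    · intro p hp hpn
      exfalso
      obtain ⟨_, _, hi⟩ := h1 p hp hpn
      have h2 := (abs_le.1 hpn).2
      have h3 := (abs_le.1 hi).1
      nlinarith
    · intro y hy hyR
      exfalso
      have : y ∈ S ∩ Set.Icc (-R) R := ⟨hy, abs_le.1 hyR⟩
      rw [hne] at this
      exact this

end Pool.Agent.H362R2.RQ
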